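import Mathlib

/-!
Gaschütz' lemma for two generators and the non-generating graph of a 2-generated group.
-/

open Subgroup

namespace Pool.Agent.W_MP_28567f_al

variable {G Q : Type*} [Group G] [Group Q]

/-- `x` and `y` generate `G`. -/
def Gen2 (x y : G) : Prop := closure {x, y} = (⊤ : Subgroup G)

lemma Gen2.symm {x y : G} (h : Gen2 x y) : Gen2 y x := by
  unfold Gen2 at *; rwa [Set.pair_comm]

lemma Gen2.map (f : G →* Q) (hf : Function.Surjective f) {x y : G} (h : Gen2 x y) :
    Gen2 (f x) (f y) := by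
  unfold Gen2 at *
  have : (closure {x, y}).map f = closure {f x, f y} := by
    rw [MonoidHom.map_closure, Set.image_pair]
  rw [← this, h]
  exact Subgroup.map_top_of_surjective f hf

open Classical in
theorem gaschuetz_aux [Fintype G] (f : G →* Q) (X : Subgroup G) :
    ∀ q r q' r' : Q, Gen2 q r → Gen2 q' r' →
      (Finset.univ.filter (fun g : G × G => f g.1 = q ∧ f g.2 = r ∧ closure {g.1, g.2} = X)).card
      = (Finset.univ.filter
          (fun g : G × G => f g.1 = q' ∧ f g.2 = r' ∧ closure {g.1, g.2} = X)).card := by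
  classical
  have : Finite (Subgroup G) := inferInstance
  have : Fintype (Subgroup G) := Fintype.ofFinite _
  induction X using WellFoundedLT.induction with
  | ind X ih =>
  intro q r q' r' h h'
  -- the case where `X` does not map onto `Q`
  by_cases hX : X.map f = ⊤
  swap
  · have key : ∀ q r : Q, Gen2 q r →
        (Finset.univ.filter
          (fun g : G × G => f g.1 = q ∧ f g.2 = r ∧ closure {g.1, g.2} = X)) = ∅ := by
      intro q r hqr
      apply Finset.filter_eq_empty_iff.mpr
      rintro ⟨a, b⟩ - ⟨ha, hb, hab⟩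
      apply hX
      simp only at ha hb hab
      rw [← hab, MonoidHom.map_closure, Set.image_pair, ha, hb]
      exact hqr
    rw [key q r h, key q' r' h']
  -- total number of lifts in `X`
  let T : Q → Q → Finset (G × G) := fun q r =>
    Finset.univ.filter (fun g : G × G => g.1 ∈ X ∧ g.2 ∈ X ∧ f g.1 = q ∧ f g.2 = r)
  let A : Subgroup G → Q → Q → Finset (G × G) := fun Y q r =>
    Finset.univ.filter (fun g : G × G => f g.1 = q ∧ f g.2 = r ∧ closure {g.1, g.2} = Y)
  have hT : ∀ q r q' r' : Q, (T q r).card ≤ (T q' r').card := by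
    intro q r q' r'
    have h1 : ∀ s : Q, ∃ c ∈ X, f c = s := by
      intro s
      have : s ∈ X.map f := by rw [hX]; trivial
      exact this
    obtain ⟨c, hc, hc'⟩ := h1 (q⁻¹ * q')
    obtain ⟨d, hd, hd'⟩ := h1 (r⁻¹ * r')
    apply Finset.card_le_card_of_injOn (fun g => (g.1 * c, g.2 * d))
    · rintro ⟨a, b⟩ hg
      simp only [T, Finset.coe_filter, Finset.mem_univ, true_and, Set.mem_ofPred_eq] at hg ⊢
      obtain ⟨ha, hb, hfa, hfb⟩ := hg
      refine ⟨X.mul_mem ha hc, X.mul_mem hb hd, ?_, ?_⟩
      · rw [map_mul, hfa, hc']; group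
      · rw [map_mul, hfb, hd']; group
    · rintro ⟨a, b⟩ - ⟨a', b'⟩ - hab
      simpa using hab
  have hsum : ∀ q r : Q, (T q r).card
      = ∑ Y ∈ Finset.univ.filter (fun Y : Subgroup G => Y ≤ X), (A Y q r).card := by
    intro q r
    rw [Finset.card_eq_sum_card_fiberwise (f := fun g : G × G => closure {g.1, g.2})
      (t := Finset.univ.filter (fun Y : Subgroup G => Y ≤ X))]
    · apply Finset.sum_congr rfl
      intro Y hY
      have hY' : Y ≤ X := by simpa using hY
      congr 1
      ext ⟨a, b⟩
      simp only [T, A, Finset.mem_filter, Finset.mem_univ, true_and]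
      constructor
      · rintro ⟨⟨_, _, h3, h4⟩, h5⟩
        exact ⟨h3, h4, h5⟩
      · rintro ⟨h3, h4, h5⟩
        refine ⟨⟨hY' ?_, hY' ?_, h3, h4⟩, h5⟩
        · rw [← h5]; exact subset_closure (by simp)
        · rw [← h5]; exact subset_closure (by simp)
    · rintro ⟨a, b⟩ hab
      simp only [T, Finset.coe_filter, Finset.mem_univ, true_and, Set.mem_ofPred_eq] at hab ⊢
      rw [closure_le]
      intro z hz
      simp only [Set.mem_insert_iff, Set.mem_singleton_iff] at hz
      rcases hz with rfl | rfl
      · exact hab.1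
      · exact hab.2.1
  have hTeq : (T q r).card = (T q' r').card := le_antisymm (hT _ _ _ _) (hT _ _ _ _)
  rw [hsum, hsum] at hTeq
  have hmem : X ∈ Finset.univ.filter (fun Y : Subgroup G => Y ≤ X) := by simp
  rw [← Finset.add_sum_erase _ _ hmem, ← Finset.add_sum_erase _ _ hmem] at hTeq
  have hrest : ∑ Y ∈ (Finset.univ.filter (fun Y : Subgroup G => Y ≤ X)).erase X, (A Y q r).card
      = ∑ Y ∈ (Finset.univ.filter (fun Y : Subgroup G => Y ≤ X)).erase X, (A Y q' r').card := by
    apply Finset.sum_congr rfl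
    intro Y hY
    simp only [Finset.mem_erase, Finset.mem_filter, Finset.mem_univ, true_and] at hY
    exact ih Y (lt_of_le_of_ne hY.2 hY.1) q r q' r' h h'
  rw [hrest] at hTeq
  exact Nat.add_right_cancel hTeq

/-- Gaschütz' lemma for two generators. -/
theorem gaschuetz [Finite G] (f : G →* Q) (hf : Function.Surjective f)
    (hG : ∃ a b : G, Gen2 a b) {q r : Q} (h : Gen2 q r) :
    ∃ x y : G, f x = q ∧ f y = r ∧ Gen2 x y := by
  classical
  have : Fintype G := Fintype.ofFinite G
  obtain ⟨a, b, hab⟩ := hG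
  have h1 := gaschuetz_aux f ⊤ (f a) (f b) q r (hab.map f hf) h
  have h2 : 0 < (Finset.univ.filter
      (fun g : G × G => f g.1 = f a ∧ f g.2 = f b ∧ closure {g.1, g.2} = (⊤ : Subgroup G))).card := by
    apply Finset.card_pos.mpr
    exact ⟨(a, b), by simpa using (show closure {a, b} = (⊤ : Subgroup G) from hab)⟩
  rw [h1] at h2
  obtain ⟨⟨x, y⟩, hxy⟩ := Finset.card_pos.mp h2
  simp only [Finset.mem_filter, Finset.mem_univ, true_and] at hxy
  exact ⟨x, y, hxy⟩

/-- `x` is part of a generating pair. -/
def InV (x : G) : Prop := ∃ y, Gen2 x y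

/-- adjacency in the non-generating graph restricted to its non-universal vertices -/
def NG (x y : G) : Prop := InV x ∧ InV y ∧ ¬ Gen2 x y

lemma NG.symm {x y : G} (h : NG x y) : NG y x :=
  ⟨h.2.1, h.1, fun h' => h.2.2 h'.symm⟩

/-- the non-generating graph without its universal vertices is connected -/
def Conn (G : Type*) [Group G] : Prop :=
  ∀ x y : G, InV x → InV y → Relation.ReflTransGen NG x y

lemma InV.map (f : G →* Q) (hf : Function.Surjective f) {x : G} (h : InV x) : InV (f x) := by
  obtain ⟨y, hy⟩ := h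
  exact ⟨f y, hy.map f hf⟩

lemma InV.lift [Finite G] (f : G →* Q) (hf : Function.Surjective f)
    (hG : ∃ a b : G, Gen2 a b) {q : Q} (h : InV q) : ∃ x, f x = q ∧ InV x := by
  obtain ⟨r, hr⟩ := h
  obtain ⟨x, y, hx, -, hxy⟩ := gaschuetz f hf hG hr
  exact ⟨x, hx, y, hxy⟩

lemma isCyclic_of_gen2_self {q : Q} (h : Gen2 q q) : IsCyclic Q := by
  refine ⟨q, fun y => ?_⟩
  have : y ∈ closure {q, q} := by rw [h]; trivial
  rwa [Set.pair_eq_singleton, ← zpowers_eq_closure] at this

theorem Conn.lift [Finite G] (f : G →* Q) (hf : Function.Surjective f)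
    (hG : ∃ a b : G, Gen2 a b) (hQ : ¬ IsCyclic Q) (hc : Conn Q) : Conn G := by
  intro x y hx hy
  have h := hc (f x) (f y) (hx.map f hf) (hy.map f hf)
  have key : ∀ q : Q, Relation.ReflTransGen NG (f x) q → ∀ z : G, InV z → f z = q →
      Relation.ReflTransGen NG x z := by
    intro q hq
    induction hq with
    | refl =>
      intro z hz hfz
      apply Relation.ReflTransGen.single
      refine ⟨hx, hz, fun hg => hQ ?_⟩
      have := hg.map f hf
      rw [hfz] at this
      exact isCyclic_of_gen2_self this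
    | tail hab hbc ih =>
      intro z hz hfz
      obtain ⟨w, hw, hw'⟩ := hbc.1.lift f hf hG
      refine (ih w hw' hw).tail ⟨hw', hz, fun hg => hbc.2.2 ?_⟩
      have := hg.map f hf
      rwa [hw, hfz] at this
  exact key _ h y hy rfl

/-- if every element of `V` is connected to an element of `V` in a fixed proper subgroup then the
graph is connected -/
theorem conn_of_subgroup (M : Subgroup G) (hM : M ≠ ⊤)
    (h : ∀ x : G, InV x → ∃ y ∈ M, InV y ∧ Relation.ReflTransGen NG x y) : Conn G := by
  have hsymm : ∀ a b : G, Relation.ReflTransGen NG a b → Relation.ReflTransGen NG b a := by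
    intro a b hab
    induction hab with
    | refl => exact Relation.ReflTransGen.refl
    | tail _ h2 ih => exact Relation.ReflTransGen.head h2.symm ih
  intro x y hx hy
  obtain ⟨x', hx'M, hx', hxx'⟩ := h x hx
  obtain ⟨y', hy'M, hy', hyy'⟩ := h y hy
  refine (hxx'.tail ⟨hx', hy', fun hg => hM ?_⟩).trans (hsymm _ _ hyy')
  rw [eq_top_iff, ← hg, closure_le]
  intro z hz
  simp only [Set.mem_insert_iff, Set.mem_singleton_iff] at hz
  rcases hz with rfl | rfl <;> assumption

end Pool.Agent.W_MP_28567f_al
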