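import Mathlib
import Pool.Agent.W_MP_28567f_al.Gasch

/-!
The non-generating graph of a group with an abelian non-central minimal normal subgroup with
cyclic quotient.
-/

open Subgroup

namespace Pool.Agent.W_MP_28567f_al

variable {G : Type*} [Group G]

lemma mem_cent {g k : G} : k ∈ centralizer ({g} : Set G) ↔ g * k = k * g := by
  rw [mem_centralizer_singleton_iff]
  exact eq_comm

lemma inf_normal_of_mul (T A : Subgroup G) (hAn : A.Normal)
    (hab : ∀ a ∈ A, ∀ b ∈ A, a * b = b * a)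
    (hTA : ∀ g : G, ∃ t ∈ T, ∃ a ∈ A, g = t * a) : (T ⊓ A).Normal := by
  refine ⟨fun n hn g => ?_⟩
  obtain ⟨t, ht, a, ha, rfl⟩ := hTA g
  have h1 : t * a * n * (t * a)⁻¹ = t * n * t⁻¹ := by
    rw [mul_assoc t a n, hab a ha n hn.2]; group
  rw [h1]
  exact ⟨T.mul_mem (T.mul_mem ht hn.1) (T.inv_mem ht), hAn.conj_mem n hn.2 t⟩

/-- a subgroup supplementing the abelian minimal normal subgroup `A` and meeting it nontrivially
is everything -/
lemma eq_top_of_mul (T A : Subgroup G) (hAn : A.Normal)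
    (hmin : ∀ N : Subgroup G, N.Normal → N ≤ A → N = ⊥ ∨ N = A)
    (hab : ∀ a ∈ A, ∀ b ∈ A, a * b = b * a)
    (hTA : ∀ g : G, ∃ t ∈ T, ∃ a ∈ A, g = t * a) {b : G} (hbT : b ∈ T) (hbA : b ∈ A)
    (hb : b ≠ 1) : T = ⊤ := by
  have hn := inf_normal_of_mul T A hAn hab hTA
  rcases hmin _ hn inf_le_right with h | h
  · exfalso
    have : b ∈ T ⊓ A := ⟨hbT, hbA⟩
    rw [h] at this
    exact hb (by simpa using this)
  · have hAT : A ≤ T := by rw [← h]; exact inf_le_left
    rw [eq_top_iff]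
    intro g _
    obtain ⟨t, ht, a, ha, rfl⟩ := hTA g
    exact T.mul_mem ht (hAT ha)

/-- a complement-or-everything dichotomy -/
lemma eq_top_or_disjoint (T A : Subgroup G) (hAn : A.Normal)
    (hmin : ∀ N : Subgroup G, N.Normal → N ≤ A → N = ⊥ ∨ N = A)
    (hab : ∀ a ∈ A, ∀ b ∈ A, a * b = b * a)
    (hTA : ∀ g : G, ∃ t ∈ T, ∃ a ∈ A, g = t * a) : T = ⊤ ∨ T ⊓ A = ⊥ := by
  by_cases h : T ⊓ A = ⊥
  · exact Or.inr h
  · left
    obtain ⟨b, hb, hb1⟩ := (T ⊓ A).bot_or_exists_ne_one.resolve_left h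
    exact eq_top_of_mul T A hAn hmin hab hTA hb.1 hb.2 hb1

theorem conn_of_cyclic_quotient [Finite G] (A : Subgroup G) (hAn : A.Normal) (hA : A ≠ ⊥)
    (hmin : ∀ N : Subgroup G, N.Normal → N ≤ A → N = ⊥ ∨ N = A)
    (hab : ∀ a ∈ A, ∀ b ∈ A, a * b = b * a)
    (hcyc : IsCyclic (G ⧸ A))
    (M : Subgroup G) (hM : M ≠ ⊤) (hAM : A ≤ M) (hMc : ∃ m ∈ M, ∃ a ∈ A, m * a ≠ a * m) :
    Conn G := by
  obtain ⟨m, hmM, a₀, ha₀, hma⟩ := hMc
  obtain ⟨b, hbA, hb1⟩ := A.bot_or_exists_ne_one.resolve_left hA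
  -- `G/A` is abelian
  have hcomm : ∀ g h : G, g⁻¹ * h⁻¹ * g * h ∈ A := by
    intro g h
    rw [← QuotientGroup.eq_one_iff]
    have := (IsCyclic.commGroup (α := G ⧸ A)).mul_comm
    have h2 : ((g : G ⧸ A) * (h : G ⧸ A)) = (h : G ⧸ A) * (g : G ⧸ A) := by
      obtain ⟨z, hz⟩ := hcyc
      obtain ⟨i, hi⟩ := hz (g : G ⧸ A)
      obtain ⟨j, hj⟩ := hz (h : G ⧸ A)
      simp only at hi hj
      rw [← hi, ← hj, ← zpow_add, ← zpow_add, add_comm]
    simp only [QuotientGroup.mk_mul, QuotientGroup.mk_inv]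
    rw [mul_assoc, h2]; group
  -- fixed points
  have hfix : ∀ y : G, (∃ a ∈ A, y * a ≠ a * y) → ∀ c ∈ A, y * c = c * y → c = 1 := by
    intro y hy c hc hyc
    have hN : (A ⊓ centralizer {y}).Normal := by
      refine ⟨fun n hn g => ⟨hAn.conj_mem n hn.1 g, ?_⟩⟩
      have hn2 : y * n = n * y := (mem_cent.mp hn.2)
      change g * n * g⁻¹ ∈ centralizer ({y} : Set G)
      rw [mem_cent]
      have ha' := hcomm y g
      set a' := y⁻¹ * g⁻¹ * y * g with ha'def
      have h3 : g⁻¹ * y * g = y * a' := by rw [ha'def]; group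
      have h4 : a' * n = n * a' := hab a' ha' n hn.1
      calc y * (g * n * g⁻¹) = g * ((g⁻¹ * y * g) * n) * g⁻¹ := by group
        _ = g * (n * (g⁻¹ * y * g)) * g⁻¹ := by
            rw [h3, mul_assoc y, h4, ← mul_assoc y, hn2, mul_assoc n]
        _ = g * n * g⁻¹ * y := by group
    rcases hmin _ hN inf_le_left with h | h
    · have : c ∈ A ⊓ centralizer {y} := ⟨hc, mem_cent.mpr hyc⟩
      rw [h] at this
      simpa using this
    · exfalso
      obtain ⟨a, ha, hya⟩ := hy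
      have : a ∈ A ⊓ centralizer {y} := by rw [h]; exact ha
      exact hya (mem_cent.mp this.2)
  obtain ⟨g₀, hg₀⟩ : ∃ g₀ : G, ∀ g : G, ∃ k : ℤ, ∃ a ∈ A, g = g₀ ^ k * a := by
    obtain ⟨z, hz⟩ := hcyc
    obtain ⟨g₀, rfl⟩ := QuotientGroup.mk_surjective z
    refine ⟨g₀, fun g => ?_⟩
    obtain ⟨k, hk⟩ := hz (g : G ⧸ A)
    simp only at hk
    refine ⟨k, (g₀ ^ k)⁻¹ * g, ?_, by group⟩
    rw [← QuotientGroup.eq_one_iff, QuotientGroup.mk_mul, QuotientGroup.mk_inv,
      QuotientGroup.mk_zpow, hk]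
    group
  -- elements congruent to `g₀` mod `A`
  have hcong : ∀ a ∈ A, ∀ k : ℤ, ∃ a' ∈ A, g₀ ^ k = (g₀ * a) ^ k * a' := by
    intro a ha k
    refine ⟨((g₀ * a) ^ k)⁻¹ * g₀ ^ k, ?_, by group⟩
    rw [← QuotientGroup.eq_one_iff, QuotientGroup.mk_mul, QuotientGroup.mk_inv,
      QuotientGroup.mk_zpow, QuotientGroup.mk_zpow, QuotientGroup.mk_mul]
    rw [(QuotientGroup.eq_one_iff a).mpr ha]
    simp
  have hsup : ∀ T : Subgroup G, ∀ a ∈ A, g₀ * a ∈ T → ∀ g : G, ∃ t ∈ T, ∃ a ∈ A, g = t * a := by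
    intro T a ha hT g
    obtain ⟨k, a₁, ha₁, rfl⟩ := hg₀ g
    obtain ⟨a₂, ha₂, h2⟩ := hcong a ha k
    exact ⟨(g₀ * a) ^ k, T.zpow_mem hT k, a₂ * a₁, A.mul_mem ha₂ ha₁, by rw [h2]; group⟩
  have hbm : m * b ≠ b * m := fun h => hb1 (hfix m ⟨a₀, ha₀, hma⟩ b hbA h)
  apply conn_of_subgroup M hM
  intro x hx
  by_cases hxc : ∃ a ∈ A, x * a ≠ a * x
  · -- `x` acts nontrivially on `A`
    have hC : ∀ g : G, ∃ a ∈ A, x * (g * a) = (g * a) * x := by
      intro g
      let φ : A → A := fun a => ⟨x⁻¹ * (a : G)⁻¹ * x * a, hcomm x a⟩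
      have hφ : Function.Injective φ := by
        intro a c hac
        have h1 : x⁻¹ * (a : G)⁻¹ * x * a = x⁻¹ * (c : G)⁻¹ * x * c := congrArg Subtype.val hac
        have h2 : (a : G)⁻¹ * x * a = (c : G)⁻¹ * x * c := by
          have := congrArg (fun z => x * z) h1
          simpa [mul_assoc] using this
        have h3 : x * ((a : G) * (c : G)⁻¹) = ((a : G) * (c : G)⁻¹) * x := by
          calc x * ((a : G) * (c : G)⁻¹) = a * ((a : G)⁻¹ * x * a) * (c : G)⁻¹ := by group
            _ = a * ((c : G)⁻¹ * x * c) * (c : G)⁻¹ := by rw [h2]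
            _ = _ := by group
        have h4 := hfix x hxc _ (A.mul_mem a.2 (A.inv_mem c.2)) h3
        apply Subtype.ext
        exact mul_inv_eq_one.mp h4
      have hφs : Function.Surjective φ := Finite.surjective_of_injective hφ
      obtain ⟨a, ha⟩ := hφs ⟨x⁻¹ * g⁻¹ * x * g, hcomm x g⟩
      have h1 : x⁻¹ * (a : G)⁻¹ * x * a = x⁻¹ * g⁻¹ * x * g := congrArg Subtype.val ha
      have h2 : (a : G)⁻¹ * x * a = g⁻¹ * x * g := by
        have := congrArg (fun z => x * z) h1
        simpa [mul_assoc] using this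
      refine ⟨(a : G)⁻¹, A.inv_mem a.2, ?_⟩
      calc x * (g * (a : G)⁻¹) = g * (g⁻¹ * x * g) * (a : G)⁻¹ := by group
        _ = g * ((a : G)⁻¹ * x * a) * (a : G)⁻¹ := by rw [h2]
        _ = _ := by group
    obtain ⟨a₁, ha₁, h1⟩ := hC g₀
    set h := g₀ * a₁ with hh
    have hdisj : ∀ c : G, c ∈ A → x * c = c * x → c = 1 := hfix x hxc
    -- the centralizer of `x` is generated by `h`
    have hCh : ∀ c : G, x * c = c * x → ∃ k : ℤ, c = h ^ k := by
      intro c hc
      obtain ⟨k, a, ha, rfl⟩ := hg₀ c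
      obtain ⟨a₂, ha₂, h2⟩ := hcong a₁ ha₁ k
      refine ⟨k, ?_⟩
      have hck : Commute x (h ^ k) := (show Commute x h from h1).zpow_right k
      have h3 : x * (a₂ * a) = (a₂ * a) * x := by
        have h4 : g₀ ^ k * a = h ^ k * (a₂ * a) := by rw [h2, mul_assoc]
        rw [h4] at hc
        have : Commute x (h ^ k * (a₂ * a)) := hc
        have h5 : Commute x ((h ^ k)⁻¹ * (h ^ k * (a₂ * a))) := hck.inv_right.mul_right this
        rwa [inv_mul_cancel_left] at h5
      have h6 := hdisj _ (A.mul_mem ha₂ ha) h3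
      rw [h2, mul_assoc, h6, mul_one]
    obtain ⟨a₃, ha₃, h3⟩ := hC m
    have hyM : m * a₃ ∈ M := M.mul_mem hmM (hAM ha₃)
    have hyA : ∃ a ∈ A, (m * a₃) * a ≠ a * (m * a₃) := by
      refine ⟨a₀, ha₀, fun h => hma ?_⟩
      have h5 : a₃ * a₀ = a₀ * a₃ := hab a₃ ha₃ a₀ ha₀
      have h6 : m * a₀ * a₃ = a₀ * m * a₃ := by
        calc m * a₀ * a₃ = m * a₃ * a₀ := by rw [mul_assoc, ← h5, ← mul_assoc]
          _ = a₀ * (m * a₃) := h
          _ = _ := by group
      exact mul_right_cancel h6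
    obtain ⟨k, hk⟩ := hCh _ h3
    have hyV : InV (m * a₃) := by
      refine ⟨h * b, ?_⟩
      unfold Gen2
      have hsT := hsup (closure {m * a₃, h * b}) (a₁ * b) (A.mul_mem ha₁ hbA)
        (subset_closure (by simp [hh, mul_assoc]))
      rcases eq_top_or_disjoint _ A hAn hmin hab hsT with h7 | h7
      · exact h7
      · exfalso
        have hy : m * a₃ ∈ closure {m * a₃, h * b} := subset_closure (by simp)
        have hhb : h * b ∈ closure {m * a₃, h * b} := subset_closure (by simp)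
        have h8 : (m * a₃)⁻¹ * (h * b)⁻¹ * (m * a₃) * (h * b) ∈
            closure {m * a₃, h * b} ⊓ A :=
          mem_inf.mpr ⟨mul_mem (mul_mem (mul_mem (inv_mem hy) (inv_mem hhb)) hy) hhb, hcomm _ _⟩
        rw [h7, mem_bot] at h8
        have h9 : (m * a₃) * (h * b) = (h * b) * (m * a₃) := by
          calc (m * a₃) * (h * b) = (h * b) * (m * a₃) *
              ((m * a₃)⁻¹ * (h * b)⁻¹ * (m * a₃) * (h * b)) := by group
            _ = _ := by rw [h8, mul_one]
        have h10 : (m * a₃) * h = h * (m * a₃) := by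
          rw [hk]
          exact (Commute.refl h).zpow_left k
        have h11 : (m * a₃) * b = b * (m * a₃) := by
          have : h * ((m * a₃) * b) = h * (b * (m * a₃)) := by
            calc h * ((m * a₃) * b) = (h * (m * a₃)) * b := by group
              _ = ((m * a₃) * h) * b := by rw [h10]
              _ = (m * a₃) * (h * b) := by group
              _ = (h * b) * (m * a₃) := h9
              _ = _ := by group
          exact mul_left_cancel this
        exact hb1 (hfix _ hyA b hbA h11)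
    refine ⟨m * a₃, hyM, hyV, Relation.ReflTransGen.single ⟨hx, hyV, fun hg => ?_⟩⟩
    have h12 : closure {x, m * a₃} ≤ centralizer {x} := by
      rw [closure_le]
      intro z hz
      simp only [Set.mem_insert_iff, Set.mem_singleton_iff] at hz
      rcases hz with rfl | rfl
      · exact mem_cent.mpr rfl
      · exact mem_cent.mpr h3
    rw [hg, top_le_iff] at h12
    have : b ∈ centralizer {x} := by rw [h12]; trivial
    exact hb1 (hdisj b hbA (mem_cent.mp this))
  · push Not at hxc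
    have hbV : InV b := by
      refine ⟨g₀, ?_⟩
      have hsT := hsup (closure {b, g₀}) 1 A.one_mem (subset_closure (by simp))
      exact eq_top_of_mul _ A hAn hmin hab hsT (subset_closure (by simp)) hbA hb1
    refine ⟨b, hAM hbA, hbV, Relation.ReflTransGen.single ⟨hx, hbV, fun hg => ?_⟩⟩
    have h12 : closure {x, b} ≤ centralizer {b} := by
      rw [closure_le]
      intro z hz
      simp only [Set.mem_insert_iff, Set.mem_singleton_iff] at hz
      rcases hz with rfl | rfl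
      · exact mem_cent.mpr (hxc b hbA).symm
      · exact mem_cent.mpr rfl
    rw [hg, top_le_iff] at h12
    have : m ∈ centralizer {b} := by rw [h12]; trivial
    exact hbm (mem_cent.mp this).symm

end Pool.Agent.W_MP_28567f_al
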