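import Mathlib
import Pool.Agent.W_MP_28567f_al.CyclicTop

/-!
Minimal normal subgroups of finite soluble groups, conjugacy of complements of a self-centralizing
minimal normal subgroup.
-/

open Subgroup

namespace Pool.Agent.W_MP_28567f_al

variable {G : Type*} [Group G]

theorem exists_minNormal (Q : Type*) [Group Q] [Finite Q] [Group.IsSolvable Q] [Nontrivial Q] :
    ∃ (N : Subgroup Q) (p : ℕ), N.Normal ∧ N ≠ ⊥ ∧
      (∀ K : Subgroup Q, K.Normal → K ≤ N → K = ⊥ ∨ K = N) ∧
      (∀ a ∈ N, ∀ b ∈ N, a * b = b * a) ∧ p.Prime ∧ ∀ a ∈ N, a ^ p = 1 := by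
  classical
  let S : Set (Subgroup Q) := {N | N.Normal ∧ N ≠ ⊥}
  have hS : S.Nonempty := ⟨⊤, inferInstance, bot_ne_top.symm⟩
  have hSf : S.Finite := Set.toFinite S
  obtain ⟨N, hN⟩ := hSf.exists_minimal hS
  have hNn : N.Normal := hN.prop.1
  have hNb : N ≠ ⊥ := hN.prop.2
  have hmin : ∀ K : Subgroup Q, K.Normal → K ≤ N → K = ⊥ ∨ K = N := by
    intro K hK hKN
    by_cases hKb : K = ⊥
    · exact Or.inl hKb
    · right
      exact le_antisymm hKN (hN.le_of_le ⟨hK, hKb⟩ hKN)
  have hcomm : ⁅N, N⁆ = ⊥ := by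
    have hlt := Group.IsSolvable.commutator_lt_of_ne_bot hNb
    rcases hmin ⁅N, N⁆ inferInstance hlt.le with h | h
    · exact h
    · exact absurd h hlt.ne
  have hab : ∀ a ∈ N, ∀ b ∈ N, a * b = b * a := by
    intro a ha b hb
    have h1 := commutator_mem_commutator ha hb
    rw [hcomm, mem_bot] at h1
    exact commutatorElement_eq_one_iff_mul_comm.mp h1
  obtain ⟨n, hn, hn1⟩ := N.bot_or_exists_ne_one.resolve_left hNb
  have ho : orderOf n ≠ 1 := fun h => hn1 (orderOf_eq_one_iff.mp h)
  obtain ⟨p, hp, hpo⟩ := Nat.exists_prime_and_dvd ho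
  refine ⟨N, p, hNn, hNb, hmin, hab, hp, ?_⟩
  let K : Subgroup Q :=
    { carrier := {a | a ∈ N ∧ a ^ p = 1}
      one_mem' := ⟨N.one_mem, one_pow p⟩
      mul_mem' := by
        rintro a b ⟨ha, ha'⟩ ⟨hb, hb'⟩
        refine ⟨N.mul_mem ha hb, ?_⟩
        have : Commute a b := hab a ha b hb
        rw [this.mul_pow, ha', hb', one_mul]
      inv_mem' := by
        rintro a ⟨ha, ha'⟩
        exact ⟨N.inv_mem ha, by rw [inv_pow, ha', inv_one]⟩ }
  have hKn : K.Normal := by
    refine ⟨fun k hk g => ?_⟩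
    refine ⟨hNn.conj_mem k hk.1 g, ?_⟩
    rw [conj_pow, hk.2]; simp
  have hKN : K ≤ N := fun k hk => hk.1
  rcases hmin K hKn hKN with h | h
  · exfalso
    obtain ⟨m, hm⟩ := hpo
    have h1 : n ^ m ∈ K := by
      refine ⟨N.pow_mem hn m, ?_⟩
      rw [← pow_mul, mul_comm m p, ← hm, pow_orderOf_eq_one]
    rw [h, mem_bot] at h1
    have h2 := orderOf_dvd_of_pow_eq_one h1
    have h3 : 0 < orderOf n := orderOf_pos n
    have h4 : 0 < m := by
      rcases Nat.eq_zero_or_pos m with h | h
      · rw [h] at hm; omega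
      · exact h
    have h5 := Nat.le_of_dvd h4 h2
    have h6 : 2 ≤ p := hp.two_le
    nlinarith
  · intro a ha
    rw [← h] at ha
    exact ha.2

/-- a normal `q`-subgroup of exponent `q` above a self-centralizing minimal normal `q`-subgroup
is trivial modulo it -/
theorem prime_ne_of_faithful [Finite G] (A B : Subgroup G) (hAn : A.Normal) (hBn : B.Normal)
    (hA : A ≠ ⊥)
    (hmin : ∀ N : Subgroup G, N.Normal → N ≤ A → N = ⊥ ∨ N = A)
    (hcent : ∀ g, (∀ a ∈ A, g * a = a * g) → g ∈ A)
    {q : ℕ} (hq : q.Prime) (hAq : ∀ a ∈ A, a ^ q = 1) (hBq : ∀ b ∈ B, b ^ q ∈ A) : B ≤ A := by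
  classical
  have : Fact q.Prime := ⟨hq⟩
  have hBp : IsPGroup q B := by
    intro b
    refine ⟨2, ?_⟩
    apply Subtype.ext
    have := hAq _ (hBq b b.2)
    simp only [SubgroupClass.coe_pow, OneMemClass.coe_one]
    rw [pow_two, pow_mul]; exact this
  have hAp : IsPGroup q A := fun a => ⟨1, Subtype.ext (by simpa using hAq a a.2)⟩
  -- `B` acts on `A` by conjugation
  let _ : MulAction B A :=
    { smul := fun b a => ⟨(b : G) * a * (b : G)⁻¹, hAn.conj_mem a a.2 b⟩
      one_smul := fun a => by apply Subtype.ext; change (1 : G) * a * (1 : G)⁻¹ = a; simp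
      mul_smul := fun b c a => by
        apply Subtype.ext
        change ((b : G) * c) * a * ((b : G) * c)⁻¹ = b * (c * a * (c : G)⁻¹) * (b : G)⁻¹
        group }
  have hmod := hBp.card_modEq_card_fixedPoints A
  have hcardA : q ∣ Nat.card A := by
    have : Nontrivial A := (Subgroup.nontrivial_iff_ne_bot A).mpr hA
    obtain ⟨n, hn⟩ := hAp.exists_card_eq
    rw [hn]
    apply dvd_pow_self
    rintro rfl
    have : Nat.card A = 1 := by simpa using hn
    have h1 : 1 < Nat.card A := Finite.one_lt_card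
    omega
  have hfix : q ∣ Nat.card (MulAction.fixedPoints B A) :=
    (Nat.modEq_zero_iff_dvd.mp ((hmod.symm.trans ((Nat.modEq_zero_iff_dvd).mpr hcardA))))
  have hone : (1 : A) ∈ MulAction.fixedPoints B A := by
    intro b
    apply Subtype.ext
    change (b : G) * (1 : G) * (b : G)⁻¹ = 1
    simp
  have hne : ∃ a ∈ MulAction.fixedPoints B A, a ≠ 1 := by
    by_contra hcon
    push Not at hcon
    have : MulAction.fixedPoints B A = {1} := by
      ext a; constructor
      · intro ha; exact hcon a ha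
      · rintro rfl; exact hone
    rw [this] at hfix
    simp at hfix
    exact hq.one_lt.ne' hfix
  obtain ⟨a, ha, ha1⟩ := hne
  -- the centralizer of `B` in `A`
  have hN : (A ⊓ centralizer (B : Set G)).Normal := by
    have := hBn
    have := hAn
    infer_instance
  rcases hmin _ hN inf_le_left with h | h
  · exfalso
    have h1 : (a : G) ∈ A ⊓ centralizer (B : Set G) := by
      refine mem_inf.mpr ⟨a.2, ?_⟩
      rw [mem_centralizer_iff]
      intro b hb
      have := congrArg Subtype.val (ha ⟨b, hb⟩)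
      change b * a * b⁻¹ = a at this
      exact mul_inv_eq_iff_eq_mul.mp this
    rw [h, mem_bot] at h1
    exact ha1 (Subtype.ext h1)
  · intro b hb
    apply hcent
    intro a ha
    have h1 : a ∈ A ⊓ centralizer (B : Set G) := by rw [h]; exact ha
    exact (mem_centralizer_iff.mp h1.2) b hb

end Pool.Agent.W_MP_28567f_al
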