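import Mathlib
import Pool.Agent.W_MP_28567f_al.MinNormal

/-!
Conjugacy of complements of a self-centralizing minimal normal subgroup, and the non-generating
graph of a primitive soluble group with non-cyclic point stabilizer.
-/

open Subgroup

namespace Pool.Agent.W_MP_28567f_al

variable {G : Type*} [Group G]

/-- for a complement `K` of the normal `q`-subgroup `A`, `K ∩ B` is a Sylow `r`-subgroup of `B` -/
theorem sylow_inf [Finite G] (A B K : Subgroup G) (hAB : A ≤ B)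
    {q r : ℕ} (hq : q.Prime) (hr : r.Prime) (hqr : r ≠ q)
    (hAq : ∀ a ∈ A, a ^ q = 1) (hBr : ∀ b ∈ B, b ^ r ∈ A)
    (hK : K ⊓ A = ⊥) (hKA : ∀ g : G, ∃ t ∈ K, ∃ a ∈ A, g = t * a) :
    ∃ P : Sylow r B, (P : Subgroup B) = (K ⊓ B).subgroupOf B := by
  classical
  have _hq' : Fact q.Prime := ⟨hq⟩
  have : Fact r.Prime := ⟨hr⟩
  have h1 : IsPGroup r ((K ⊓ B).subgroupOf B) := by
    rintro ⟨⟨x, hxB⟩, hx⟩
    refine ⟨1, ?_⟩
    have hx' : x ∈ K ⊓ B := hx
    have h2 : x ^ r ∈ K ⊓ A := mem_inf.mpr ⟨K.pow_mem hx'.1 r, hBr x hxB⟩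
    rw [hK, mem_bot] at h2
    apply Subtype.ext
    apply Subtype.ext
    simpa using h2
  have h2 : IsComplement' (A.subgroupOf B) ((K ⊓ B).subgroupOf B) := by
    apply isComplement'_of_disjoint_and_mul_eq_univ
    · rw [disjoint_iff, eq_bot_iff]
      rintro ⟨x, hxB⟩ ⟨hx1, hx2⟩
      have h3 : x ∈ K ⊓ A := mem_inf.mpr ⟨(show x ∈ K ⊓ B from hx2).1, hx1⟩
      rw [hK, mem_bot] at h3
      rw [mem_bot]
      exact Subtype.ext h3
    · rw [Set.eq_univ_iff_forall]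
      rintro ⟨x, hxB⟩
      obtain ⟨t, ht, a, ha, hta⟩ := hKA x⁻¹
      have hxta : x = a⁻¹ * t⁻¹ := by
        rw [← inv_inv x, hta]; group
      have htB : t⁻¹ ∈ B := by
        have : t⁻¹ = a * x := by rw [hxta]; group
        rw [this]; exact B.mul_mem (hAB ha) hxB
      refine ⟨⟨a⁻¹, hAB (A.inv_mem ha)⟩, A.inv_mem ha, ⟨t⁻¹, htB⟩,
        (show t⁻¹ ∈ K ⊓ B from mem_inf.mpr ⟨K.inv_mem ht, htB⟩), ?_⟩
      exact Subtype.ext hxta.symm
  have h3 : ¬ r ∣ ((K ⊓ B).subgroupOf B).index := by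
    rw [h2.index_eq_card]
    have hAp : IsPGroup q A := fun a => ⟨1, Subtype.ext (by simpa using hAq a a.2)⟩
    obtain ⟨n, hn⟩ := hAp.exists_card_eq
    rw [Nat.card_congr (subgroupOfEquivOfLe hAB).toEquiv, hn]
    intro h4
    exact hqr ((Nat.prime_dvd_prime_iff_eq hr hq).mp (hr.dvd_of_dvd_pow h4))
  exact ⟨h1.toSylow h3, rfl⟩

theorem exists_conj_complement [Finite G] [Group.IsSolvable G] (A M T : Subgroup G)
    (hAn : A.Normal) (hA : A ≠ ⊥)
    (hmin : ∀ N : Subgroup G, N.Normal → N ≤ A → N = ⊥ ∨ N = A)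
    (hab : ∀ a ∈ A, ∀ b ∈ A, a * b = b * a)
    {q : ℕ} (hq : q.Prime) (hAq : ∀ a ∈ A, a ^ q = 1)
    (hcent : ∀ g, (∀ a ∈ A, g * a = a * g) → g ∈ A)
    (hM : M ⊓ A = ⊥) (hMA : ∀ g : G, ∃ t ∈ M, ∃ a ∈ A, g = t * a)
    (hT : T ⊓ A = ⊥) (hTA : ∀ g : G, ∃ t ∈ T, ∃ a ∈ A, g = t * a) (htop : A ≠ ⊤) :
    ∃ c ∈ A, ∀ t ∈ T, c * t * c⁻¹ ∈ M := by
  classical
  have hQ : Nontrivial (G ⧸ A) := by
    rw [QuotientGroup.nontrivial_iff]; exact htop
  obtain ⟨N, r, hNn, hNb, -, -, hr, hNr⟩ := exists_minNormal (G ⧸ A)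
  set B : Subgroup G := N.comap (QuotientGroup.mk' A) with hBdef
  have hBn : B.Normal := by rw [hBdef]; infer_instance
  have hmemB : ∀ g : G, g ∈ B ↔ (g : G ⧸ A) ∈ N := fun g => Iff.rfl
  have hAB : A ≤ B := by
    intro a ha
    rw [hmemB, (QuotientGroup.eq_one_iff a).mpr ha]
    exact N.one_mem
  have hBr : ∀ b ∈ B, b ^ r ∈ A := by
    intro b hb
    rw [← QuotientGroup.eq_one_iff, QuotientGroup.mk_pow]
    exact hNr _ ((hmemB b).mp hb)
  have hBA : ¬ B ≤ A := by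
    intro h
    apply hNb
    rw [eq_bot_iff]
    intro z hz
    obtain ⟨g, rfl⟩ := QuotientGroup.mk_surjective z
    rw [mem_bot, QuotientGroup.eq_one_iff]
    exact h ((hmemB g).mpr hz)
  have hrq : r ≠ q := by
    rintro rfl
    exact hBA (prime_ne_of_faithful A B hAn hBn hA hmin hcent hq hAq hBr)
  have : Fact r.Prime := ⟨hr⟩
  obtain ⟨P, hP⟩ := sylow_inf A B T hAB hq hr hrq hAq hBr hT hTA
  obtain ⟨P', hP'⟩ := sylow_inf A B M hAB hq hr hrq hAq hBr hM hMA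
  obtain ⟨b, hb⟩ := MulAction.exists_smul_eq B P P'
  have hmem : ∀ x : B, x ∈ (P : Subgroup B) ↔ b * x * b⁻¹ ∈ (P' : Subgroup B) := by
    intro x
    rw [← hb, Sylow.coe_subgroup_smul]
    have : b * x * b⁻¹ = MulAut.conj b • x := rfl
    rw [this]
    exact (smul_mem_pointwise_smul_iff).symm
  have hconj : ∀ x : G, x ∈ T ⊓ B ↔ (b : G) * x * (b : G)⁻¹ ∈ M ⊓ B := by
    intro x
    constructor
    · intro hx
      have h1 : (⟨x, hx.2⟩ : B) ∈ (P : Subgroup B) := by rw [hP]; exact hx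
      have h2 := (hmem _).mp h1
      rw [hP'] at h2
      exact h2
    · intro hx
      have hxB : x ∈ B := by
        have h1 := hBn.conj_mem _ hx.2 (b : G)⁻¹
        have h2 : (b : G)⁻¹ * ((b : G) * x * (b : G)⁻¹) * (b : G)⁻¹⁻¹ = x := by group
        rwa [h2] at h1
      have h1 : b * ⟨x, hxB⟩ * b⁻¹ ∈ (P' : Subgroup B) := by rw [hP']; exact hx
      have h2 := (hmem ⟨x, hxB⟩).mpr h1
      rw [hP] at h2
      exact h2
  obtain ⟨s, hs, c, hc, hbc⟩ := hMA (b : G)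
  have hcB : c ∈ B := hAB hc
  have hsB : s ∈ B := by
    have : s = b * c⁻¹ := by rw [hbc]; group
    rw [this]; exact B.mul_mem b.2 (B.inv_mem hcB)
  have hsMB : ∀ x : G, s * x * s⁻¹ ∈ M ⊓ B ↔ x ∈ M ⊓ B := by
    intro x
    have hs' : s ∈ M ⊓ B := mem_inf.mpr ⟨hs, hsB⟩
    constructor
    · intro h
      have h1 := (M ⊓ B).mul_mem ((M ⊓ B).mul_mem ((M ⊓ B).inv_mem hs') h) hs'
      have h2 : s⁻¹ * (s * x * s⁻¹) * s = x := by group
      rwa [h2] at h1
    · intro h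
      exact (M ⊓ B).mul_mem ((M ⊓ B).mul_mem hs' h) ((M ⊓ B).inv_mem hs')
  have hcconj : ∀ x : G, x ∈ T ⊓ B ↔ c * x * c⁻¹ ∈ M ⊓ B := by
    intro x
    rw [hconj, ← hsMB (c * x * c⁻¹)]
    have : s * (c * x * c⁻¹) * s⁻¹ = (b : G) * x * (b : G)⁻¹ := by rw [hbc]; group
    rw [this]
  set N' : Subgroup G := normalizer ((M ⊓ B : Subgroup G) : Set G) with hN'
  have hMN : M ≤ N' := by
    intro m hm
    rw [hN', mem_normalizer_iff]
    intro x
    constructor
    · intro hx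
      exact mem_inf.mpr ⟨M.mul_mem (M.mul_mem hm hx.1) (M.inv_mem hm), hBn.conj_mem x hx.2 m⟩
    · intro hx
      have h1 := M.mul_mem (M.mul_mem (M.inv_mem hm) hx.1) hm
      have h2 := hBn.conj_mem _ hx.2 m⁻¹
      have h3 : m⁻¹ * (m * x * m⁻¹) * m = x := by group
      have h4 : m⁻¹ * (m * x * m⁻¹) * m⁻¹⁻¹ = x := by group
      rw [h3] at h1
      rw [h4] at h2
      exact mem_inf.mpr ⟨h1, h2⟩
  have hNA : ∀ g : G, ∃ t ∈ N', ∃ a ∈ A, g = t * a := by
    intro g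
    obtain ⟨t, ht, a, ha, h⟩ := hMA g
    exact ⟨t, hMN ht, a, ha, h⟩
  have hN'A : N' ⊓ A = ⊥ := by
    rcases eq_top_or_disjoint N' A hAn hmin hab hNA with h | h
    · exfalso
      apply hBA
      intro x hxB
      obtain ⟨t, ht, a, ha, rfl⟩ := hMA x
      have htB : t ∈ B := by
        have := B.mul_mem hxB (B.inv_mem (hAB ha))
        rwa [mul_inv_cancel_right] at this
      have htA : t ∈ A := by
        apply hcent
        intro a' ha'
        have h1 : a'⁻¹ ∈ N' := by rw [h]; trivial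
        rw [hN', mem_normalizer_iff] at h1
        have h2 := (h1 t).mp (mem_inf.mpr ⟨ht, htB⟩)
        have h3 : t⁻¹ * (a'⁻¹ * t * a'⁻¹⁻¹) ∈ M ⊓ A := by
          refine mem_inf.mpr ⟨M.mul_mem (M.inv_mem ht) h2.1, ?_⟩
          have h4 : t⁻¹ * (a'⁻¹ * t * a'⁻¹⁻¹) = (t⁻¹ * a'⁻¹ * t⁻¹⁻¹) * a' := by group
          rw [h4]
          exact A.mul_mem (hAn.conj_mem _ (A.inv_mem ha') _) ha'
        rw [hM, mem_bot] at h3
        have h5 : a'⁻¹ * t * a'⁻¹⁻¹ = t := by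
          have := inv_mul_eq_one.mp h3
          exact this.symm
        calc t * a' = a' * (a'⁻¹ * t * a'⁻¹⁻¹) := by group
          _ = a' * t := by rw [h5]
      exact A.mul_mem htA ha
    · exact h
  refine ⟨c, hc, fun t ht => ?_⟩
  have hctN : c * t * c⁻¹ ∈ N' := by
    rw [hN', mem_normalizer_iff]
    intro x
    have e1 : x ∈ M ⊓ B ↔ c⁻¹ * x * c ∈ T ⊓ B := by
      rw [hcconj]
      have : c * (c⁻¹ * x * c) * c⁻¹ = x := by group
      rw [this]
    have e2 : c * t * c⁻¹ * x * (c * t * c⁻¹)⁻¹ ∈ M ⊓ B ↔ t * (c⁻¹ * x * c) * t⁻¹ ∈ T ⊓ B := by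
      rw [hcconj]
      have : c * (t * (c⁻¹ * x * c) * t⁻¹) * c⁻¹ = c * t * c⁻¹ * x * (c * t * c⁻¹)⁻¹ := by group
      rw [this]
    rw [e1, e2]
    constructor
    · intro hx
      exact mem_inf.mpr ⟨T.mul_mem (T.mul_mem ht hx.1) (T.inv_mem ht), hBn.conj_mem _ hx.2 t⟩
    · intro hx
      have h1 := T.mul_mem (T.mul_mem (T.inv_mem ht) hx.1) ht
      have h2 := hBn.conj_mem _ hx.2 t⁻¹
      have h3 : t⁻¹ * (t * (c⁻¹ * x * c) * t⁻¹) * t = c⁻¹ * x * c := by group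
      have h4 : t⁻¹ * (t * (c⁻¹ * x * c) * t⁻¹) * t⁻¹⁻¹ = c⁻¹ * x * c := by group
      rw [h3] at h1
      rw [h4] at h2
      exact mem_inf.mpr ⟨h1, h2⟩
  obtain ⟨m, hm, a, ha, hma⟩ := hMA (c * t * c⁻¹)
  have ha' : a ∈ N' ⊓ A := by
    refine mem_inf.mpr ⟨?_, ha⟩
    have : a = m⁻¹ * (c * t * c⁻¹) := by rw [hma]; group
    rw [this]
    exact N'.mul_mem (N'.inv_mem (hMN hm)) hctN
  rw [hN'A, mem_bot] at ha'
  rw [hma, ha', mul_one]
  exact hm

/-- The non-generating graph of a primitive soluble group with non-cyclic point stabilizer is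
connected. -/
theorem conn_of_primitive [Finite G] [Group.IsSolvable G] (A M : Subgroup G)
    (hAn : A.Normal) (hA : A ≠ ⊥)
    (hmin : ∀ N : Subgroup G, N.Normal → N ≤ A → N = ⊥ ∨ N = A)
    (hab : ∀ a ∈ A, ∀ b ∈ A, a * b = b * a)
    {q : ℕ} (hq : q.Prime) (hAq : ∀ a ∈ A, a ^ q = 1)
    (hcent : ∀ g, (∀ a ∈ A, g * a = a * g) → g ∈ A)
    (hM : M ⊓ A = ⊥) (hMA : ∀ g : G, ∃ t ∈ M, ∃ a ∈ A, g = t * a)
    (hnc : ¬ IsCyclic (G ⧸ A)) : Conn G := by
  classical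
  have htop : A ≠ ⊤ := by
    rintro rfl
    apply hnc
    have : Subsingleton (G ⧸ (⊤ : Subgroup G)) := QuotientGroup.subsingleton_quotient_top
    infer_instance
  have hMtop : M ≠ ⊤ := by
    rintro rfl
    rw [top_inf_eq] at hM
    exact hA hM
  have hgen : ∀ x w : G, Gen2 x w → ∀ h v : G, x⁻¹ * h ∈ A → w⁻¹ * v ∈ A →
      ∀ g : G, ∃ t ∈ closure {h, v}, ∃ a ∈ A, g = t * a := by
    intro x w hxw h v hxh hwv g
    have h1 : closure {h, v} ⊔ A = ⊤ := by
      rw [eq_top_iff, ← hxw, closure_le]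
      intro z hz
      simp only [Set.mem_insert_iff, Set.mem_singleton_iff] at hz
      rcases hz with rfl | rfl
      · have : z = h * (z⁻¹ * h)⁻¹ := by group
        rw [this]
        exact mul_mem (mem_sup_left (subset_closure (by simp))) (mem_sup_right (A.inv_mem hxh))
      · have : z = v * (z⁻¹ * v)⁻¹ := by group
        rw [this]
        exact mul_mem (mem_sup_left (subset_closure (by simp))) (mem_sup_right (A.inv_mem hwv))
    have h2 : g ∈ closure {h, v} ⊔ A := by rw [h1]; trivial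
    obtain ⟨t, ht, a, ha, hta⟩ := mem_sup_of_normal_right.mp h2
    exact ⟨t, ht, a, ha, hta.symm⟩
  have hcyc : ∀ x w : G, Gen2 x w → x ∉ A := by
    intro x w hxw hx
    apply hnc
    have h1 := hxw.map (QuotientGroup.mk' A) (QuotientGroup.mk'_surjective A)
    have h2 : QuotientGroup.mk' A x = 1 := (QuotientGroup.eq_one_iff x).mpr hx
    rw [h2] at h1
    refine ⟨QuotientGroup.mk' A w, fun y => ?_⟩
    have h3 : y ∈ closure {(1 : G ⧸ A), QuotientGroup.mk' A w} := by rw [h1]; trivial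
    rw [closure_insert_one, ← zpowers_eq_closure] at h3
    exact h3
  apply conn_of_subgroup M hMtop
  intro x hx
  obtain ⟨w, hxw⟩ := hx
  obtain ⟨h, hhM, a₀, ha₀, hxh⟩ := hMA x
  have hxh' : x⁻¹ * h ∈ A := by
    have : x⁻¹ * h = a₀⁻¹ := by rw [hxh]; group
    rw [this]; exact A.inv_mem ha₀
  have hh1 : h ∉ A := by
    intro hh
    apply hcyc x w hxw
    rw [hxh]; exact A.mul_mem hh ha₀
  have hhV : InV h := by
    by_contra hcon
    -- all the subgroups `⟨h, w b⟩` are complements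
    let T : A → Subgroup G := fun b => closure {h, w * b}
    have hTA : ∀ b : A, ∀ g : G, ∃ t ∈ T b, ∃ a ∈ A, g = t * a := by
      intro b
      apply hgen x w hxw h (w * b) hxh'
      rw [inv_mul_cancel_left]; exact b.2
    have hTd : ∀ b : A, T b ⊓ A = ⊥ := by
      intro b
      rcases eq_top_or_disjoint (T b) A hAn hmin hab (hTA b) with h1 | h1
      · exact absurd ⟨w * b, h1⟩ hcon
      · exact h1
    have hex : ∀ b : A, ∃ c : A, ∀ t ∈ T b, (c : G) * t * (c : G)⁻¹ ∈ M := by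
      intro b
      obtain ⟨c, hc, h1⟩ := exists_conj_complement A M (T b) hAn hA hmin hab hq hAq hcent hM hMA
        (hTd b) (hTA b) htop
      exact ⟨⟨c, hc⟩, h1⟩
    choose φ hφ using hex
    have hinj : Function.Injective φ := by
      intro b b' hbb
      have h1 := hφ b (w * b) (subset_closure (by simp))
      have h2 := hφ b' (w * b') (subset_closure (by simp))
      rw [← hbb] at h2
      have h3 : (φ b : G) * ((b : G)⁻¹ * (b' : G)) * (φ b : G)⁻¹ ∈ M ⊓ A := by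
        refine mem_inf.mpr ⟨?_, hAn.conj_mem _ (A.mul_mem (A.inv_mem b.2) b'.2) _⟩
        have h4 := M.mul_mem (M.inv_mem h1) h2
        have h5 : ((φ b : G) * (w * b) * (φ b : G)⁻¹)⁻¹ * ((φ b : G) * (w * b') * (φ b : G)⁻¹)
            = (φ b : G) * ((b : G)⁻¹ * (b' : G)) * (φ b : G)⁻¹ := by group
        rwa [h5] at h4
      rw [hM, mem_bot, conj_eq_one_iff] at h3
      exact Subtype.ext (inv_mul_eq_one.mp h3)
    have hsurj : Function.Surjective φ := Finite.surjective_of_injective hinj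
    apply hh1
    apply hcent
    intro c hc
    obtain ⟨b, hb⟩ := hsurj ⟨c, hc⟩
    have h1 := hφ b h (subset_closure (by simp))
    rw [hb] at h1
    simp only at h1
    have h2 : h⁻¹ * (c * h * c⁻¹) ∈ M ⊓ A := by
      refine mem_inf.mpr ⟨M.mul_mem (M.inv_mem hhM) h1, ?_⟩
      have h3 : h⁻¹ * (c * h * c⁻¹) = (h⁻¹ * c * h⁻¹⁻¹) * c⁻¹ := by group
      rw [h3]
      exact A.mul_mem (hAn.conj_mem _ hc _) (A.inv_mem hc)
    rw [hM, mem_bot] at h2
    have h3 : h = c * h * c⁻¹ := inv_mul_eq_one.mp h2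
    calc h * c = (c * h * c⁻¹) * c := by rw [← h3]
      _ = c * h := by group
  refine ⟨h, hhM, hhV, Relation.ReflTransGen.single ⟨⟨w, hxw⟩, hhV, fun hg => hnc ?_⟩⟩
  have h1 := hg.map (QuotientGroup.mk' A) (QuotientGroup.mk'_surjective A)
  have h2 : QuotientGroup.mk' A h = QuotientGroup.mk' A x := by
    change (h : G ⧸ A) = (x : G ⧸ A)
    exact (QuotientGroup.eq.mpr hxh').symm
  rw [h2] at h1
  exact isCyclic_of_gen2_self h1

end Pool.Agent.W_MP_28567f_al
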