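import Mathlib
import Pool.Agent.W_MP_28567f_al.Primitive

/-!
The non-generating graph of two kinds of direct products.
-/

open Subgroup

namespace Pool.Agent.W_MP_28567f_al

theorem conn_prod_coprime {X Y : Type*} [Group X] [Group Y] [Finite X] [Finite Y]
    (hX : ¬ IsCyclic X) (hY : IsCyclic Y) [Nontrivial Y]
    (hco : (Nat.card X).Coprime (Nat.card Y)) : Conn (X × Y) := by
  classical
  have hM : (Subgroup.prod (⊤ : Subgroup X) (⊥ : Subgroup Y)) ≠ ⊤ := by
    intro h
    obtain ⟨y, hy⟩ := exists_ne (1 : Y)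
    have : ((1 : X), y) ∈ Subgroup.prod (⊤ : Subgroup X) (⊥ : Subgroup Y) := by rw [h]; trivial
    exact hy (by simpa using (Subgroup.mem_prod.mp this).2)
  apply conn_of_subgroup _ hM
  rintro ⟨x, y⟩ hxy
  obtain ⟨x', hx'⟩ := hxy.map (MonoidHom.fst X Y) Prod.fst_surjective
  obtain ⟨t, ht⟩ := hY
  have hV : InV ((x, 1) : X × Y) := by
    refine ⟨(x', t), ?_⟩
    set D := closure {((x, 1) : X × Y), (x', t)} with hD
    have h1 : ((x, 1) : X × Y) ∈ D := subset_closure (by simp)
    have h2 : ((x', t) : X × Y) ∈ D := subset_closure (by simp)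
    have h3 : ((1, t) : X × Y) ∈ D := by
      have h4 := Nat.gcd_eq_gcd_ab (Nat.card X) (Nat.card Y)
      rw [Nat.Coprime.gcd_eq_one hco] at h4
      set a := Nat.gcdA (Nat.card X) (Nat.card Y)
      set b := Nat.gcdB (Nat.card X) (Nat.card Y)
      have h5 := D.zpow_mem h2 ((Nat.card X : ℤ) * a)
      have h6 : ((x', t) : X × Y) ^ ((Nat.card X : ℤ) * a) = (1, t) := by
        apply Prod.ext
        · rw [Prod.pow_fst, zpow_mul, zpow_natCast, pow_card_eq_one', one_zpow]
        · rw [Prod.pow_snd]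
          have h7 : t = t ^ ((Nat.card X : ℤ) * a + (Nat.card Y : ℤ) * b) := by
            rw [← h4]; simp
          simp only
          conv_rhs => rw [h7]
          rw [zpow_add, zpow_mul t (Nat.card Y : ℤ), zpow_natCast, pow_card_eq_one', one_zpow,
            mul_one]
      rwa [h6] at h5
    have h4 : ((x', 1) : X × Y) ∈ D := by
      have := D.mul_mem h2 (D.inv_mem h3)
      simpa using this
    unfold Gen2
    rw [← hD, eq_top_iff]
    rintro ⟨u, v⟩ -
    have h5 : (u, (1 : Y)) ∈ D := by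
      have h6 : (closure {x, x'}).map (MonoidHom.inl X Y) ≤ D := by
        rw [MonoidHom.map_closure, closure_le]
        rintro _ ⟨z, hz, rfl⟩
        simp only [Set.mem_insert_iff, Set.mem_singleton_iff] at hz
        rcases hz with rfl | rfl
        · exact h1
        · exact h4
      apply h6
      refine ⟨u, ?_, rfl⟩
      have h7 : closure {x, x'} = ⊤ := hx'
      rw [h7]; trivial
    have h6 : ((1 : X), v) ∈ D := by
      obtain ⟨k, hk⟩ := ht v
      simp only at hk
      have := D.zpow_mem h3 k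
      have h7 : ((1, t) : X × Y) ^ k = (1, v) := by
        apply Prod.ext
        · rw [Prod.pow_fst]; simp
        · rw [Prod.pow_snd]; exact hk
      rwa [h7] at this
    have := D.mul_mem h5 h6
    simpa using this
  refine ⟨(x, 1), ?_, hV, Relation.ReflTransGen.single ⟨hxy, hV, fun hg => hX ?_⟩⟩
  · exact Subgroup.mem_prod.mpr ⟨trivial, by simp⟩
  · exact isCyclic_of_gen2_self (hg.map (MonoidHom.fst X Y) Prod.fst_surjective)

/-- `A` is a self-centralizing abelian minimal normal subgroup of prime index `p`. -/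
structure FrobLike {X : Type*} [Group X] (A : Subgroup X) (p : ℕ) : Prop where
  prime : p.Prime
  normal : A.Normal
  ne_bot : A ≠ ⊥
  min : ∀ N : Subgroup X, N.Normal → N ≤ A → N = ⊥ ∨ N = A
  comm : ∀ a ∈ A, ∀ b ∈ A, a * b = b * a
  cent : ∀ g, (∀ a ∈ A, g * a = a * g) → g ∈ A
  index : A.index = p
  exp : ∃ q : ℕ, q.Prime ∧ ∀ a ∈ A, a ^ q = 1

namespace FrobLike

variable {X : Type*} [Group X] {A : Subgroup X} {p : ℕ}

lemma pow_mem (h : FrobLike A p) (x : X) : x ^ p ∈ A := by
  have := h.normal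
  rw [← QuotientGroup.eq_one_iff, QuotientGroup.mk_pow]
  have hc : Nat.card (X ⧸ A) = p := h.index
  rw [← hc]
  exact pow_card_eq_one'

lemma exists_rep (h : FrobLike A p) {u : X} (hu : u ∉ A) (g : X) :
    ∃ k : ℤ, ∃ a ∈ A, g = u ^ k * a := by
  have := h.normal
  have hc : Nat.card (X ⧸ A) = p := h.index
  have : Fact p.Prime := ⟨h.prime⟩
  have h1 : (u : X ⧸ A) ≠ 1 := by rwa [Ne, QuotientGroup.eq_one_iff]
  have h2 : (g : X ⧸ A) ∈ zpowers (u : X ⧸ A) := mem_zpowers_of_prime_card hc h1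
  obtain ⟨k, hk⟩ := mem_zpowers_iff.mp h2
  refine ⟨k, (u ^ k)⁻¹ * g, ?_, by group⟩
  rw [← QuotientGroup.eq_one_iff, QuotientGroup.mk_mul, QuotientGroup.mk_inv,
      QuotientGroup.mk_zpow, hk]
  group

lemma fix (h : FrobLike A p) {y c : X} (hy : y ∉ A) (hc : c ∈ A) (hyc : y * c = c * y) :
    c = 1 := by
  have hN : (A ⊓ centralizer {y}).Normal := by
    refine ⟨fun n hn g => ?_⟩
    obtain ⟨k, a, ha, rfl⟩ := h.exists_rep hy g
    have hn1 := hn.1
    have hn2 : y * n = n * y := mem_cent.mp hn.2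
    have h1 : y ^ k * a * n * (y ^ k * a)⁻¹ = n := by
      have h2 : a * n = n * a := h.comm a ha n hn1
      have h3 : y ^ k * n = n * y ^ k := (show Commute y n from hn2).zpow_left k
      calc y ^ k * a * n * (y ^ k * a)⁻¹ = y ^ k * (a * n) * a⁻¹ * (y ^ k)⁻¹ := by group
        _ = (y ^ k * n) * (y ^ k)⁻¹ := by rw [h2]; group
        _ = n := by rw [h3]; group
    rw [h1]; exact hn
  rcases h.min _ hN inf_le_left with h1 | h1
  · have : c ∈ A ⊓ centralizer {y} := mem_inf.mpr ⟨hc, mem_cent.mpr hyc⟩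
    rw [h1, mem_bot] at this
    exact this
  · exfalso
    apply hy
    apply h.cent
    intro a ha
    have : a ∈ A ⊓ centralizer {y} := by rw [h1]; exact ha
    exact mem_cent.mp this.2

lemma pow_eq_one (h : FrobLike A p) {y : X} (hy : y ∉ A) : y ^ p = 1 :=
  h.fix hy (h.pow_mem y) (by rw [← pow_succ, ← pow_succ'])

lemma ne_top (h : FrobLike A p) : A ≠ ⊤ := by
  intro h1
  have := h.index
  rw [h1, index_top] at this
  exact h.prime.one_lt.ne this

lemma exists_notMem (h : FrobLike A p) : ∃ y : X, y ∉ A := by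
  by_contra hcon
  push Not at hcon
  exact h.ne_top (eq_top_iff.mpr fun y _ => hcon y)

lemma exists_ne_one (h : FrobLike A p) : ∃ a ∈ A, a ≠ 1 :=
  A.bot_or_exists_ne_one.resolve_left h.ne_bot

lemma pow_ne_one [Finite X] (h : FrobLike A p) {a : X} (ha : a ∈ A) (ha1 : a ≠ 1) :
    a ^ p ≠ 1 := by
  obtain ⟨q, hq, hAq⟩ := h.exp
  have hqp : q ≠ p := by
    rintro rfl
    have := prime_ne_of_faithful A ⊤ h.normal inferInstance h.ne_bot h.min h.cent hq hAq
      (fun b _ => h.pow_mem b)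
    exact h.ne_top (top_le_iff.mp this)
  intro h1
  have h2 : orderOf a ∣ p := orderOf_dvd_of_pow_eq_one h1
  have h3 : orderOf a ∣ q := orderOf_dvd_of_pow_eq_one (hAq a ha)
  have h4 : orderOf a ∣ Nat.gcd p q := Nat.dvd_gcd h2 h3
  rw [(Nat.coprime_primes h.prime hq).mpr (Ne.symm hqp)] at h4
  exact ha1 (orderOf_eq_one_iff.mp (Nat.dvd_one.mp h4))

lemma eq_top (h : FrobLike A p) {D : Subgroup X} (hAD : A ≤ D) {d : X} (hd : d ∈ D)
    (hdA : d ∉ A) : D = ⊤ := by
  rw [eq_top_iff]
  intro g _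
  obtain ⟨k, a, ha, rfl⟩ := h.exists_rep hdA g
  exact D.mul_mem (D.zpow_mem hd k) (hAD ha)

lemma gen2 (h : FrobLike A p) {u a : X} (hu : u ∉ A) (ha : a ∈ A) (ha1 : a ≠ 1) :
    Gen2 u a := by
  refine eq_top_of_mul _ A h.normal h.min h.comm ?_ (b := a) (subset_closure (by simp)) ha ha1
  intro g
  obtain ⟨k, c, hc, rfl⟩ := h.exists_rep hu g
  exact ⟨u ^ k, zpow_mem (subset_closure (by simp)) k, c, hc, rfl⟩

lemma not_cyclic (h : FrobLike A p) : ¬ IsCyclic X := by
  intro hc
  obtain ⟨y, hy⟩ := h.exists_notMem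
  obtain ⟨a, ha, ha1⟩ := h.exists_ne_one
  apply ha1
  apply h.fix hy ha
  obtain ⟨g, hg⟩ := hc
  obtain ⟨i, hi⟩ := hg y
  obtain ⟨j, hj⟩ := hg a
  simp only at hi hj
  rw [← hi, ← hj, ← zpow_add, ← zpow_add, add_comm]

/-- a normal subgroup meeting `A` non-trivially contains it -/
lemma le_of_normal (h : FrobLike A p) {D : Subgroup X} (hD : D.Normal) {d : X} (hd : d ∈ D)
    (hdA : d ∈ A) (hd1 : d ≠ 1) : A ≤ D := by
  have := h.normal
  rcases h.min (D ⊓ A) inferInstance inf_le_right with h1 | h1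
  · exfalso
    have : d ∈ D ⊓ A := mem_inf.mpr ⟨hd, hdA⟩
    rw [h1, mem_bot] at this
    exact hd1 this
  · rw [← h1]; exact inf_le_left

end FrobLike

theorem conn_prod_frob {X Y : Type*} [Group X] [Group Y] [Finite X] [Finite Y]
    {A : Subgroup X} {B : Subgroup Y} {p : ℕ} (hX : FrobLike A p) (hY : FrobLike B p) :
    Conn (X × Y) := by
  classical
  have hAn := hX.normal
  have hBn := hY.normal
  -- elements outside both
  have hT : ∀ u v, u ∉ A → v ∉ B → InV ((u, v) : X × Y) := by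
    intro u v hu hv
    obtain ⟨a, ha, ha1⟩ := hX.exists_ne_one
    obtain ⟨b, hb, hb1⟩ := hY.exists_ne_one
    have hvb : v * b ∉ B := fun h => hv (by
      have := B.mul_mem h (B.inv_mem hb)
      rwa [mul_inv_cancel_right] at this)
    refine ⟨(a, v * b), ?_⟩
    set D := closure {((u, v) : X × Y), (a, v * b)} with hD
    have h1 : ((u, v) : X × Y) ∈ D := subset_closure (by simp)
    have h2 : ((a, v * b) : X × Y) ∈ D := subset_closure (by simp)
    -- projections
    have hπ1 : ∀ x : X, ∃ y : Y, (x, y) ∈ D := by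
      intro x
      have h3 : D.map (MonoidHom.fst X Y) = ⊤ := by
        rw [hD, MonoidHom.map_closure, Set.image_pair]
        exact hX.gen2 hu ha ha1
      have h4 : x ∈ D.map (MonoidHom.fst X Y) := by rw [h3]; trivial
      obtain ⟨⟨x', y⟩, h5, h6⟩ := h4
      have : x' = x := h6
      subst this
      exact ⟨y, h5⟩
    have hπ2 : ∀ y : Y, ∃ x : X, (x, y) ∈ D := by
      intro y
      have h3 : D.map (MonoidHom.snd X Y) = ⊤ := by
        rw [hD, MonoidHom.map_closure, Set.image_pair]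
        change closure {v, v * b} = ⊤
        rw [eq_top_iff, ← hY.gen2 hv hb hb1, closure_le]
        intro z hz
        simp only [Set.mem_insert_iff, Set.mem_singleton_iff] at hz
        rcases hz with rfl | rfl
        · exact subset_closure (by simp)
        · have : z = v⁻¹ * (v * z) := by group
          rw [this]
          exact mul_mem (inv_mem (subset_closure (by simp))) (subset_closure (by simp))
      have h4 : y ∈ D.map (MonoidHom.snd X Y) := by rw [h3]; trivial
      obtain ⟨⟨x, y'⟩, h5, h6⟩ := h4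
      have : y' = y := h6
      subst this
      exact ⟨x, h5⟩
    let D1 : Subgroup X := D.comap (MonoidHom.inl X Y)
    let D2 : Subgroup Y := D.comap (MonoidHom.inr X Y)
    have hD1n : D1.Normal := by
      refine ⟨fun n hn g => ?_⟩
      obtain ⟨y, hy⟩ := hπ1 g
      have h3 := D.mul_mem (D.mul_mem hy hn) (D.inv_mem hy)
      have h4 : (g, y) * (MonoidHom.inl X Y) n * (g, y)⁻¹ = (MonoidHom.inl X Y) (g * n * g⁻¹) := by
        apply Prod.ext <;> simp
      rw [h4] at h3
      exact h3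
    have hD2n : D2.Normal := by
      refine ⟨fun n hn g => ?_⟩
      obtain ⟨x, hx⟩ := hπ2 g
      have h3 := D.mul_mem (D.mul_mem hx hn) (D.inv_mem hx)
      have h4 : (x, g) * (MonoidHom.inr X Y) n * (x, g)⁻¹ = (MonoidHom.inr X Y) (g * n * g⁻¹) := by
        apply Prod.ext <;> simp
      rw [h4] at h3
      exact h3
    have hap : a ^ p ∈ D1 := by
      have h3 := D.pow_mem h2 p
      have h4 : ((a, v * b) : X × Y) ^ p = (MonoidHom.inl X Y) (a ^ p) := by
        apply Prod.ext
        · simp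
        · simp [hY.pow_eq_one hvb]
      rw [h4] at h3
      exact h3
    have hAD1 : A ≤ D1 := hX.le_of_normal hD1n hap (A.pow_mem ha p) (hX.pow_ne_one ha ha1)
    have h3 : v * b ∈ D2 := by
      have h4 : (MonoidHom.inl X Y) a ∈ D := hAD1 ha
      have h5 := D.mul_mem h2 (D.inv_mem h4)
      have h6 : ((a, v * b) : X × Y) * ((MonoidHom.inl X Y) a)⁻¹ = (MonoidHom.inr X Y) (v * b) := by
        apply Prod.ext <;> simp
      rw [h6] at h5
      exact h5
    have hBD2 : B ≤ D2 := by
      have h4 : (v * b) * b * (v * b)⁻¹ * b⁻¹ ∈ D2 := by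
        have h5 := D2.mul_mem h3 (hD2n.conj_mem _ (D2.inv_mem h3) b)
        have h6 : v * b * (b * (v * b)⁻¹ * b⁻¹) = (v * b) * b * (v * b)⁻¹ * b⁻¹ := by group
        rwa [h6] at h5
      refine hY.le_of_normal hD2n h4 ?_ ?_
      · exact B.mul_mem (hBn.conj_mem _ hb _) (B.inv_mem hb)
      · intro h5
        apply hb1
        apply hY.fix hvb hb
        have h6 := mul_inv_eq_one.mp h5
        exact mul_inv_eq_iff_eq_mul.mp h6
    have hD2top : D2 = ⊤ := hY.eq_top hBD2 h3 hvb
    have h4 : ∀ y : Y, ((1, y) : X × Y) ∈ D := by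
      intro y
      have : y ∈ D2 := by rw [hD2top]; trivial
      exact this
    have hD1top : D1 = ⊤ := by
      apply hX.eq_top hAD1 (d := u) _ hu
      have h5 := D.mul_mem h1 (D.inv_mem (h4 v))
      have h6 : ((u, v) : X × Y) * ((1, v) : X × Y)⁻¹ = (MonoidHom.inl X Y) u := by
        apply Prod.ext <;> simp
      rw [h6] at h5
      exact h5
    unfold Gen2
    rw [← hD, eq_top_iff]
    rintro ⟨x, y⟩ -
    have h5 : ((x, 1) : X × Y) ∈ D := by
      have : x ∈ D1 := by rw [hD1top]; trivial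
      exact this
    have := D.mul_mem h5 (h4 y)
    simpa using this
  have hngX : ∀ {u v v'}, ¬ Gen2 ((u, v) : X × Y) (u, v') := fun hg =>
    hX.not_cyclic (isCyclic_of_gen2_self (hg.map (MonoidHom.fst X Y) Prod.fst_surjective))
  have hngY : ∀ {u u' v}, ¬ Gen2 ((u, v) : X × Y) (u', v) := fun hg =>
    hY.not_cyclic (isCyclic_of_gen2_self (hg.map (MonoidHom.snd X Y) Prod.snd_surjective))
  have hTT : ∀ u v u' v', u ∉ A → v ∉ B → u' ∉ A → v' ∉ B →
      Relation.ReflTransGen NG ((u, v) : X × Y) (u', v') := by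
    intro u v u' v' hu hv hu' hv'
    refine Relation.ReflTransGen.head (b := (u', v)) ⟨hT _ _ hu hv, hT _ _ hu' hv, hngY⟩ ?_
    exact Relation.ReflTransGen.single ⟨hT _ _ hu' hv, hT _ _ hu' hv', hngX⟩
  -- no element of `V` lies in `A × B`
  have hnot : ∀ u v, InV ((u, v) : X × Y) → u ∈ A → v ∉ B := by
    intro u v huv hu hv
    obtain ⟨⟨u', v'⟩, hg⟩ := huv
    let f : X × Y →* (X ⧸ A) × (Y ⧸ B) :=
      MonoidHom.prodMap (QuotientGroup.mk' A) (QuotientGroup.mk' B)
    have hf : Function.Surjective f := by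
      rintro ⟨s, t⟩
      obtain ⟨s, rfl⟩ := QuotientGroup.mk'_surjective A s
      obtain ⟨t, rfl⟩ := QuotientGroup.mk'_surjective B t
      exact ⟨(s, t), rfl⟩
    have h1 := hg.map f hf
    have h2 : f (u, v) = 1 := by
      apply Prod.ext
      · exact (QuotientGroup.eq_one_iff u).mpr hu
      · exact (QuotientGroup.eq_one_iff v).mpr hv
    rw [h2] at h1
    have h3 : IsCyclic ((X ⧸ A) × (Y ⧸ B)) := by
      refine ⟨f (u', v'), fun y => ?_⟩
      have h4 : y ∈ closure {(1 : (X ⧸ A) × (Y ⧸ B)), f (u', v')} := by rw [h1]; trivial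
      rw [closure_insert_one, ← zpowers_eq_closure] at h4
      exact h4
    have hcX : Nat.card (X ⧸ A) = p := hX.index
    have hcY : Nat.card (Y ⧸ B) = p := hY.index
    obtain ⟨g, hg'⟩ := h3
    have h4 : orderOf g = Nat.card ((X ⧸ A) × (Y ⧸ B)) :=
      orderOf_eq_card_of_forall_mem_zpowers hg'
    rw [Nat.card_prod, hcX, hcY] at h4
    have h5 : orderOf g ∣ p := by
      apply orderOf_dvd_of_pow_eq_one
      apply Prod.ext
      · rw [Prod.pow_fst, Prod.fst_one, ← hcX]; exact pow_card_eq_one'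
      · rw [Prod.pow_snd, Prod.snd_one, ← hcY]; exact pow_card_eq_one'
    rw [h4] at h5
    have h6 := Nat.le_of_dvd hX.prime.pos h5
    have h7 := hX.prime.two_le
    nlinarith
  obtain ⟨x₀, hx₀⟩ := hX.exists_notMem
  obtain ⟨y₀, hy₀⟩ := hY.exists_notMem
  have hto : ∀ z : X × Y, InV z → Relation.ReflTransGen NG z (x₀, y₀) := by
    rintro ⟨u, v⟩ hz
    by_cases hu : u ∈ A
    · have hv := hnot u v hz hu
      refine Relation.ReflTransGen.head (b := (x₀, v)) ⟨hz, hT _ _ hx₀ hv, hngY⟩ ?_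
      exact hTT _ _ _ _ hx₀ hv hx₀ hy₀
    · by_cases hv : v ∈ B
      · refine Relation.ReflTransGen.head (b := (u, y₀)) ⟨hz, hT _ _ hu hy₀, hngX⟩ ?_
        exact hTT _ _ _ _ hu hy₀ hx₀ hy₀
      · exact hTT _ _ _ _ hu hv hx₀ hy₀
  have hsymm : ∀ a b : X × Y, Relation.ReflTransGen NG a b → Relation.ReflTransGen NG b a := by
    intro a b hab
    induction hab with
    | refl => exact Relation.ReflTransGen.refl
    | tail _ h2 ih => exact Relation.ReflTransGen.head h2.symm ih
  intro z z' hz hz'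
  exact (hto z hz).trans (hsymm _ _ (hto z' hz'))

end Pool.Agent.W_MP_28567f_al
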