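import Mathlib
import Pool.Agent.W_MP_28567f_al.ProdConn

/-!
If the non-generating graph of a non-cyclic 2-generated finite soluble group `G` is disconnected,
then the abelianization of `G` is a `p`-group.
-/

open Subgroup

namespace Pool.Agent.W_MP_28567f_al

theorem crt_surjective {G : Type*} [Group G] (N₁ N₂ : Subgroup G) [N₁.Normal] [N₂.Normal]
    (h : N₁ ⊔ N₂ = ⊤) :
    Function.Surjective ((QuotientGroup.mk' N₁).prod (QuotientGroup.mk' N₂)) := by
  rintro ⟨a, b⟩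
  obtain ⟨g, rfl⟩ := QuotientGroup.mk'_surjective N₁ a
  obtain ⟨k, rfl⟩ := QuotientGroup.mk'_surjective N₂ b
  have h1 : g⁻¹ * k ∈ N₁ ⊔ N₂ := by rw [h]; trivial
  obtain ⟨n₁, hn₁, n₂, hn₂, hn⟩ := mem_sup_of_normal_right.mp h1
  refine ⟨g * n₁, ?_⟩
  apply Prod.ext
  · change ((g * n₁ : G) : G ⧸ N₁) = (g : G ⧸ N₁)
    exact (QuotientGroup.eq.mpr (by simpa using hn₁)).symm
  · change ((g * n₁ : G) : G ⧸ N₂) = (k : G ⧸ N₂)
    apply QuotientGroup.eq.mpr
    have : (g * n₁)⁻¹ * k = n₂ := by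
      have : k = g * (n₁ * n₂) := by rw [hn]; group
      rw [this]; group
    rw [this]; exact hn₂

theorem gen2_prod {X Y : Type*} [Group X] [Group Y] [Finite X] [Finite Y]
    (hco : (Nat.card X).Coprime (Nat.card Y)) {x x' : X} {y y' : Y} (hx : Gen2 x x')
    (hy : Gen2 y y') : Gen2 ((x, y) : X × Y) (x', y') := by
  set D := closure {((x, y) : X × Y), (x', y')} with hD
  have key : ∀ u : X, ∀ v : Y, ((u, v) : X × Y) ∈ D → ((1, v) : X × Y) ∈ D := by
    intro u v h2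
    have h4 := Nat.gcd_eq_gcd_ab (Nat.card X) (Nat.card Y)
    rw [Nat.Coprime.gcd_eq_one hco] at h4
    set a := Nat.gcdA (Nat.card X) (Nat.card Y)
    set b := Nat.gcdB (Nat.card X) (Nat.card Y)
    have h5 := D.zpow_mem h2 ((Nat.card X : ℤ) * a)
    have h6 : ((u, v) : X × Y) ^ ((Nat.card X : ℤ) * a) = (1, v) := by
      apply Prod.ext
      · rw [Prod.pow_fst, zpow_mul, zpow_natCast, pow_card_eq_one', one_zpow]
      · rw [Prod.pow_snd]
        have h7 : v = v ^ ((Nat.card X : ℤ) * a + (Nat.card Y : ℤ) * b) := by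
          rw [← h4]; simp
        simp only
        conv_rhs => rw [h7]
        rw [zpow_add, zpow_mul v (Nat.card Y : ℤ), zpow_natCast, pow_card_eq_one', one_zpow,
          mul_one]
    rwa [h6] at h5
  have h1 : ((x, y) : X × Y) ∈ D := subset_closure (by simp)
  have h2 : ((x', y') : X × Y) ∈ D := subset_closure (by simp)
  have h3 := key _ _ h1
  have h4 := key _ _ h2
  have h5 : ((x, 1) : X × Y) ∈ D := by simpa using D.mul_mem h1 (D.inv_mem h3)
  have h6 : ((x', 1) : X × Y) ∈ D := by simpa using D.mul_mem h2 (D.inv_mem h4)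
  unfold Gen2
  rw [← hD, eq_top_iff]
  rintro ⟨u, v⟩ -
  have h7 : (closure {x, x'}).map (MonoidHom.inl X Y) ≤ D := by
    rw [MonoidHom.map_closure, closure_le]
    rintro _ ⟨z, hz, rfl⟩
    simp only [Set.mem_insert_iff, Set.mem_singleton_iff] at hz
    rcases hz with rfl | rfl
    · exact h5
    · exact h6
  have h8 : (closure {y, y'}).map (MonoidHom.inr X Y) ≤ D := by
    rw [MonoidHom.map_closure, closure_le]
    rintro _ ⟨z, hz, rfl⟩
    simp only [Set.mem_insert_iff, Set.mem_singleton_iff] at hz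
    rcases hz with rfl | rfl
    · exact h3
    · exact h4
  have hx' : closure {x, x'} = ⊤ := hx
  have hy' : closure {y, y'} = ⊤ := hy
  have h9 : ((u, 1) : X × Y) ∈ D := h7 ⟨u, by rw [hx']; trivial, rfl⟩
  have h10 : ((1, v) : X × Y) ∈ D := h8 ⟨v, by rw [hy']; trivial, rfl⟩
  simpa using D.mul_mem h9 h10

theorem conn_prod_coprime_both {X Y : Type*} [Group X] [Group Y] [Finite X] [Finite Y]
    (hX : ¬ IsCyclic X) (hY : ¬ IsCyclic Y)
    (hco : (Nat.card X).Coprime (Nat.card Y)) : Conn (X × Y) := by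
  rintro ⟨x, y⟩ ⟨x', y'⟩ hxy hxy'
  have hx := hxy.map (MonoidHom.fst X Y) Prod.fst_surjective
  have hy' := hxy'.map (MonoidHom.snd X Y) Prod.snd_surjective
  have hmid : InV ((x, y') : X × Y) := by
    obtain ⟨u, hu⟩ := hx
    obtain ⟨v, hv⟩ := hy'
    exact ⟨(u, v), gen2_prod hco hu hv⟩
  refine Relation.ReflTransGen.head (b := (x, y')) ⟨hxy, hmid, fun hg => hX ?_⟩
    (Relation.ReflTransGen.single ⟨hmid, hxy', fun hg => hY ?_⟩)
  · exact isCyclic_of_gen2_self (hg.map (MonoidHom.fst X Y) Prod.fst_surjective)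
  · exact isCyclic_of_gen2_self (hg.map (MonoidHom.snd X Y) Prod.snd_surjective)

/-- abelian case -/
theorem conn_of_abelian {Q : Type*} [CommGroup Q] [Finite Q] (hQ : ∃ a b : Q, Gen2 a b)
    (hnc : ¬ IsCyclic Q) (hnp : ∀ p : ℕ, p.Prime → ¬ IsPGroup p Q) : Conn Q := by
  classical
  have hcard : Nat.card Q ≠ 1 := by
    intro h
    apply hnc
    have : Subsingleton Q := (Nat.card_eq_one_iff_unique.mp h).1
    infer_instance
  have hcard0 : Nat.card Q ≠ 0 := Nat.card_pos.ne'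
  obtain ⟨p, hp, hpd⟩ := Nat.exists_prime_and_dvd hcard
  obtain ⟨k, m, hpm, hkm⟩ := Nat.exists_eq_pow_mul_and_not_dvd hcard0 p hp.ne_one
  have _ : Fact p.Prime := ⟨hp⟩
  have hm1 : m ≠ 1 := by
    rintro rfl
    apply hnp p hp
    rw [IsPGroup.iff_card]
    exact ⟨k, by simpa using hkm⟩
  have hco : Nat.Coprime m (p ^ k) :=
    Nat.Coprime.pow_right k ((Nat.Prime.coprime_iff_not_dvd hp).mpr hpm).symm
  let N₁ : Subgroup Q := (powMonoidHom m : Q →* Q).ker
  let N₂ : Subgroup Q := (powMonoidHom (p ^ k) : Q →* Q).ker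
  have hmem₁ : ∀ x : Q, x ∈ N₁ ↔ x ^ m = 1 := fun x => Iff.rfl
  have hmem₂ : ∀ x : Q, x ∈ N₂ ↔ x ^ (p ^ k) = 1 := fun x => Iff.rfl
  have hall : ∀ x : Q, (x ^ (p ^ k)) ^ m = 1 := by
    intro x; rw [← pow_mul, ← hkm]; exact pow_card_eq_one'
  have hall' : ∀ x : Q, (x ^ m) ^ (p ^ k) = 1 := by
    intro x; rw [← pow_mul, mul_comm, ← hkm]; exact pow_card_eq_one'
  have hsup : N₁ ⊔ N₂ = ⊤ := by
    rw [eq_top_iff]
    intro x _
    have h4 := Nat.gcd_eq_gcd_ab m (p ^ k)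
    rw [Nat.Coprime.gcd_eq_one hco] at h4
    set a := Nat.gcdA m (p ^ k)
    set b := Nat.gcdB m (p ^ k)
    have h7 : x = x ^ ((p ^ k : ℕ) * b : ℤ) * x ^ ((m : ℤ) * a) := by
      rw [← zpow_add, add_comm, ← h4]; simp
    rw [h7]
    refine mul_mem (mem_sup_left ?_) (mem_sup_right ?_)
    · rw [hmem₁, zpow_mul, zpow_natCast, ← zpow_natCast, ← zpow_mul, mul_comm b, zpow_mul,
        zpow_natCast, hall, one_zpow]
    · rw [hmem₂, zpow_mul, zpow_natCast, ← zpow_natCast, ← zpow_mul, mul_comm a, zpow_mul,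
        zpow_natCast, hall', one_zpow]
  have hinf : N₁ ⊓ N₂ = ⊥ := by
    rw [eq_bot_iff]
    intro x hx
    have h1 : orderOf x ∣ m := orderOf_dvd_of_pow_eq_one ((hmem₁ x).mp hx.1)
    have h2 : orderOf x ∣ p ^ k := orderOf_dvd_of_pow_eq_one ((hmem₂ x).mp hx.2)
    have h3 := Nat.dvd_gcd h1 h2
    rw [hco] at h3
    exact orderOf_eq_one_iff.mp (Nat.dvd_one.mp h3)
  have hXp : IsPGroup p (Q ⧸ N₁) := by
    intro x
    obtain ⟨g, rfl⟩ := QuotientGroup.mk_surjective x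
    refine ⟨k, ?_⟩
    rw [← QuotientGroup.mk_pow, QuotientGroup.eq_one_iff, hmem₁]
    exact hall g
  have hY : ¬ p ∣ Nat.card (Q ⧸ N₂) := by
    intro hd
    obtain ⟨x, hx⟩ := exists_prime_orderOf_dvd_card' p hd
    obtain ⟨g, rfl⟩ := QuotientGroup.mk_surjective x
    apply hpm
    rw [← hx]
    apply orderOf_dvd_of_pow_eq_one
    rw [← QuotientGroup.mk_pow, QuotientGroup.eq_one_iff, hmem₂]
    exact hall' g
  have hcoXY : (Nat.card (Q ⧸ N₁)).Coprime (Nat.card (Q ⧸ N₂)) := by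
    obtain ⟨n, hn⟩ := hXp.exists_card_eq
    rw [hn]
    exact Nat.Coprime.pow_left n ((Nat.Prime.coprime_iff_not_dvd hp).mpr hY)
  have hXnt : Nontrivial (Q ⧸ N₁) := by
    rw [QuotientGroup.nontrivial_iff]
    intro htop
    obtain ⟨x, hx⟩ := exists_prime_orderOf_dvd_card' p hpd
    have h1 : x ∈ N₁ := by rw [htop]; trivial
    exact hpm (hx ▸ orderOf_dvd_of_pow_eq_one ((hmem₁ x).mp h1))
  have hYnt : Nontrivial (Q ⧸ N₂) := by
    rw [QuotientGroup.nontrivial_iff]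
    intro htop
    obtain ⟨r, hr, hrm⟩ := Nat.exists_prime_and_dvd hm1
    have _ : Fact r.Prime := ⟨hr⟩
    obtain ⟨x, hx⟩ := exists_prime_orderOf_dvd_card' (G := Q) r
      (by rw [hkm]; exact Dvd.dvd.mul_left hrm _)
    have h1 : x ∈ N₂ := by rw [htop]; trivial
    have h2 := orderOf_dvd_of_pow_eq_one ((hmem₂ x).mp h1)
    rw [hx] at h2
    have h3 := (Nat.prime_dvd_prime_iff_eq hr hp).mp (hr.dvd_of_dvd_pow h2)
    rw [h3] at hrm
    exact hpm hrm
  have hf := crt_surjective N₁ N₂ hsup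
  have hf' := crt_surjective N₂ N₁ (by rwa [sup_comm])
  have hprodnc : ¬ (IsCyclic (Q ⧸ N₁) ∧ IsCyclic (Q ⧸ N₂)) := by
    rintro ⟨h1, h2⟩
    apply hnc
    have h3 : IsCyclic ((Q ⧸ N₁) × (Q ⧸ N₂)) := Group.isCyclic_prod_iff.mpr ⟨h1, h2, hcoXY⟩
    apply isCyclic_of_injective ((QuotientGroup.mk' N₁).prod (QuotientGroup.mk' N₂))
    rw [injective_iff_map_eq_one]
    intro x hx
    have h4 : x ∈ N₁ := (QuotientGroup.eq_one_iff x).mp (congrArg Prod.fst hx)
    have h5 : x ∈ N₂ := (QuotientGroup.eq_one_iff x).mp (congrArg Prod.snd hx)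
    have h6 : x ∈ N₁ ⊓ N₂ := mem_inf.mpr ⟨h4, h5⟩
    rwa [hinf, mem_bot] at h6
  by_cases h1 : IsCyclic (Q ⧸ N₁)
  · have h2 : ¬ IsCyclic (Q ⧸ N₂) := fun h => hprodnc ⟨h1, h⟩
    refine Conn.lift _ hf' hQ ?_ (conn_prod_coprime h2 h1 hcoXY.symm)
    exact fun h => h2 (Group.isCyclic_prod_iff.mp h).1
  · by_cases h2 : IsCyclic (Q ⧸ N₂)
    · refine Conn.lift _ hf hQ ?_ (conn_prod_coprime h1 h2 hcoXY)
      exact fun h => h1 (Group.isCyclic_prod_iff.mp h).1
    · refine Conn.lift _ hf hQ ?_ (conn_prod_coprime_both h1 h2 hcoXY)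
      exact fun h => h1 (Group.isCyclic_prod_iff.mp h).1

end Pool.Agent.W_MP_28567f_al
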