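import Mathlib

/-!
Families of finite groups and the graphs `Λ_F(G)`, `Γ_F(G)`.
-/

open Subgroup

namespace Pool.Agent.W_MP_28567f_al

/-- A family of groups: a class of groups closed under isomorphism. -/
structure GroupFamily where
  /-- membership in the family -/
  mem : (G : Type) → [Group G] → Prop
  iso : ∀ {G H : Type} [Group G] [Group H], (G ≃* H) → mem G → mem H

/-- The family consists of finite soluble groups. -/
def GroupFamily.Soluble (F : GroupFamily) : Prop :=
  ∀ (G : Type) [Group G], F.mem G → Finite G ∧ Group.IsSolvable G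

/-- The family `𝒮` of all finite soluble groups. -/
def allSoluble : GroupFamily where
  mem G _ := Finite G ∧ Group.IsSolvable G
  iso := by
    rintro G H _ _ e ⟨h1, h2⟩
    exact ⟨Finite.of_equiv G e.toEquiv, Group.isSolvable_of_surjective (f := e.toMonoidHom) e.surjective⟩

/-- The graph `Λ_F(G)`: distinct `x`, `y` are adjacent iff `⟨x, y⟩` is in the family. -/
def Lam (F : GroupFamily) (G : Type) [Group G] : SimpleGraph G where
  Adj x y := x ≠ y ∧ F.mem (closure {x, y} : Subgroup G)
  symm := ⟨fun x y h => ⟨h.1.symm, by rw [Set.pair_comm]; exact h.2⟩⟩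
  loopless := ⟨fun x h => h.1 rfl⟩

/-- `I_F(G)`: the elements `x` with `⟨x, y⟩` in the family for every `y ≠ x`. -/
def isol (F : GroupFamily) (G : Type) [Group G] : Set G :=
  {x | ∀ y, y ≠ x → F.mem (closure {x, y} : Subgroup G)}

/-- The graph `Γ_F(G)`, induced by `Λ_F(G)` on `G \ I_F(G)`. -/
def Gam (F : GroupFamily) (G : Type) [Group G] : SimpleGraph ((isol F G)ᶜ : Set G) :=
  (Lam F G).induce (isol F G)ᶜ

/-- The property of Q1: `Γ_F(G)` is connected for every finite group `G` outside the family
(the graph without vertices being regarded as connected). -/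
def HasProperty (F : GroupFamily) : Prop :=
  ∀ (G : Type) [Group G] [Finite G], ¬ F.mem G → (Gam F G).Preconnected

/-- For some prime `p`: `G/G'` is a `p`-group and `G/Φ(G)` has an abelian normal subgroup of
index `p` (namely `R/Φ(G)`). -/
def Tied (G : Type*) [Group G] : Prop :=
  ∃ p : ℕ, p.Prime ∧ IsPGroup p (Abelianization G) ∧
    ∃ R : Subgroup G, R.Normal ∧ R.index = p ∧ ⁅R, R⁆ ≤ frattini G

/-- The criterion: every non-trivial 2-generated finite soluble group `G` outside the family is
non-cyclic, and if it is tied, then it contains `z ≠ w` with `G/⟨z^G⟩` non-cyclic and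
`⟨z, w⟩` outside the family. -/
def Criterion (F : GroupFamily) : Prop :=
  ∀ (G : Type) [Group G] [Finite G] [Group.IsSolvable G] [Nontrivial G],
    (∃ a b : G, closure {a, b} = (⊤ : Subgroup G)) → ¬ F.mem G →
      ¬ IsCyclic G ∧
      (Tied G → ∃ z w : G, z ≠ w ∧ ¬ IsCyclic (G ⧸ normalClosure {z}) ∧
        ¬ F.mem (closure {z, w} : Subgroup G))

end Pool.Agent.W_MP_28567f_al
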