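import Mathlib
import Pool.Agent.W_MP_28567f_al.Abelian
import Pool.Agent.W_MP_28567f_al.Defs

/-!
Structure of the 2-generated finite soluble groups with disconnected non-generating graph.
-/

open Subgroup

namespace Pool.Agent.W_MP_28567f_al

/-- a cyclic finite group in which all proper subgroups lie in one proper subgroup is a
`p`-group -/
theorem isPGroup_of_cyclic {C : Type*} [CommGroup C] [Finite C] [Nontrivial C]
    (Z : Subgroup C) (hZ : Z ≠ ⊤) (h : ∀ M : Subgroup C, M ≠ ⊤ → M ≤ Z) :
    ∃ p : ℕ, p.Prime ∧ IsPGroup p C := by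
  have hcard : Nat.card C ≠ 1 := Finite.one_lt_card.ne'
  obtain ⟨p, hp, hpd⟩ := Nat.exists_prime_and_dvd hcard
  have hrange : ∀ r : ℕ, r.Prime → r ∣ Nat.card C → (powMonoidHom r : C →* C).range ≤ Z := by
    intro r hr hrd
    apply h
    intro htop
    have _ : Fact r.Prime := ⟨hr⟩
    have hsurj : Function.Surjective (powMonoidHom r : C →* C) := MonoidHom.range_eq_top.mp htop
    have hinj : Function.Injective (powMonoidHom r : C →* C) :=
      Finite.injective_iff_surjective.mpr hsurj
    obtain ⟨x, hx⟩ := exists_prime_orderOf_dvd_card' r hrd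
    have h1 : (powMonoidHom r : C →* C) x = (powMonoidHom r : C →* C) 1 := by
      simp only [powMonoidHom_apply, one_pow]
      rw [← hx]; exact pow_orderOf_eq_one x
    have h2 := hinj h1
    rw [h2, orderOf_one] at hx
    exact hr.one_lt.ne hx
  have _ : Fact p.Prime := ⟨hp⟩
  refine ⟨p, hp, ?_⟩
  rw [IsPGroup.iff_card]
  · refine ⟨_, Nat.eq_prime_pow_of_unique_prime_dvd Nat.card_pos.ne' ?_⟩
    intro r hr hrd
    by_contra hne
    apply hZ
    rw [eq_top_iff]
    intro x _
    have hco : Nat.Coprime r p := (Nat.coprime_primes hr hp).mpr hne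
    have h4 := Nat.gcd_eq_gcd_ab r p
    rw [hco] at h4
    set a := Nat.gcdA r p
    set b := Nat.gcdB r p
    have h7 : x = (x ^ a) ^ r * (x ^ b) ^ p := by
      rw [← zpow_natCast, ← zpow_natCast, ← zpow_mul, ← zpow_mul, mul_comm a, mul_comm b,
        ← zpow_add, ← h4]; simp
    rw [h7]
    exact Z.mul_mem (hrange r hr hrd ⟨x ^ a, rfl⟩) (hrange p hp hpd ⟨x ^ b, rfl⟩)

/-- Step 1 -/
theorem abelianization_pgroup {G : Type*} [Group G] [Finite G] [Group.IsSolvable G]
    (hG : ∃ a b : G, Gen2 a b) (hnc : ¬ IsCyclic G) (hconn : ¬ Conn G) :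
    ∃ p : ℕ, p.Prime ∧ IsPGroup p (Abelianization G) := by
  classical
  have hnt : Nontrivial G := by
    by_contra h
    rw [not_nontrivial_iff_subsingleton] at h
    exact hnc inferInstance
  have hof : Function.Surjective (Abelianization.of : G →* Abelianization G) :=
    QuotientGroup.mk'_surjective _
  by_cases hQ : IsCyclic (Abelianization G)
  swap
  · by_contra hcon
    push Not at hcon
    apply hconn
    obtain ⟨a, b, hab⟩ := hG
    exact Conn.lift _ hof ⟨a, b, hab⟩ hQ
      (conn_of_abelian ⟨_, _, hab.map _ hof⟩ hQ (fun p hp => hcon p hp))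
  -- the abelianization is cyclic
  have hcomm_ne : commutator G ≠ ⊥ := by
    intro h
    apply hnc
    apply isCyclic_of_injective (Abelianization.of : G →* Abelianization G)
    rw [← MonoidHom.ker_eq_bot_iff, Abelianization.ker_of]
    exact h
  -- a maximal normal subgroup below `G'`
  let S : Set (Subgroup G) := {N | N.Normal ∧ N < commutator G}
  have hS : S.Nonempty := ⟨⊥, inferInstance, bot_lt_iff_ne_bot.mpr hcomm_ne⟩
  obtain ⟨L, hL⟩ := (Set.toFinite S).exists_maximal hS
  have hLn : L.Normal := hL.prop.1
  have hLlt : L < commutator G := hL.prop.2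
  set H := G ⧸ L with hH
  set π : G →* H := QuotientGroup.mk' L with hπ
  have hπs : Function.Surjective π := QuotientGroup.mk'_surjective L
  have hπ1 : ∀ g : G, π g = 1 ↔ g ∈ L := fun g => QuotientGroup.eq_one_iff g
  set A : Subgroup H := (commutator G).map π with hA
  have hAn : A.Normal := Subgroup.Normal.map inferInstance π hπs
  have hAcomm : commutator H = A := by
    rw [hA, commutator_def, commutator_def, map_commutator, Subgroup.map_top_of_surjective π hπs]
  have hAbot : A ≠ ⊥ := by
    intro h
    apply hLlt.not_ge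
    intro x hx
    have : π x ∈ A := ⟨x, hx, rfl⟩
    rw [h, mem_bot] at this
    exact (hπ1 x).mp this
  have hmin : ∀ N : Subgroup H, N.Normal → N ≤ A → N = ⊥ ∨ N = A := by
    intro N hN hNA
    by_cases hNA' : N = A
    · exact Or.inr hNA'
    · left
      have h1 : N.comap π ∈ S := by
        refine ⟨hN.comap π, lt_of_le_of_ne ?_ ?_⟩
        · intro x hx
          obtain ⟨y, hy, hxy⟩ := hNA hx
          have h2 : y⁻¹ * x ∈ L := by
            rw [← hπ1, map_mul, map_inv, hxy, inv_mul_cancel]
          have h3 : x = y * (y⁻¹ * x) := by group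
          rw [h3]
          exact mul_mem hy (hLlt.le h2)
        · intro h2
          apply hNA'
          rw [hA, ← h2, map_comap_eq_self_of_surjective hπs]
      have h2 : L ≤ N.comap π := by
        intro x hx
        rw [mem_comap, (hπ1 x).mpr hx]
        exact N.one_mem
      have h3 : N.comap π ≤ L := hL.le_of_ge h1 h2
      rw [eq_bot_iff]
      intro z hz
      obtain ⟨x, rfl⟩ := hπs z
      rw [mem_bot, hπ1]
      exact h3 hz
  have hHnt : Nontrivial H := by
    rw [hH, QuotientGroup.nontrivial_iff]
    rintro rfl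
    exact hLlt.not_ge le_top
  have hab : ∀ a ∈ A, ∀ b ∈ A, a * b = b * a := by
    have h1 : ⁅A, A⁆ = ⊥ := by
      have hlt := Group.IsSolvable.commutator_lt_of_ne_bot hAbot
      rcases hmin ⁅A, A⁆ inferInstance hlt.le with h | h
      · exact h
      · exact absurd h hlt.ne
    intro a ha b hb
    have h2 := commutator_mem_commutator ha hb
    rw [h1, mem_bot] at h2
    exact commutatorElement_eq_one_iff_mul_comm.mp h2
  have hcycA : IsCyclic (H ⧸ A) := by
    -- `H/A` is a quotient of the abelianization of `G`
    have h1 : commutator G ≤ ((QuotientGroup.mk' A).comp π).ker := by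
      intro x hx
      rw [MonoidHom.mem_ker, MonoidHom.comp_apply]
      exact (QuotientGroup.eq_one_iff _).mpr ⟨x, hx, rfl⟩
    let f : Abelianization G →* H ⧸ A := QuotientGroup.lift (commutator G) _ h1
    apply isCyclic_of_surjective f
    intro z
    obtain ⟨y, rfl⟩ := QuotientGroup.mk'_surjective A z
    obtain ⟨x, rfl⟩ := hπs y
    exact ⟨Abelianization.of x, rfl⟩
  have hHnc : ¬ IsCyclic H := by
    intro hc
    apply hAbot
    have hcomm : ∀ x y : H, x * y = y * x := by
      obtain ⟨z, hz⟩ := hc
      intro x y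
      obtain ⟨i, hi⟩ := hz x
      obtain ⟨j, hj⟩ := hz y
      simp only at hi hj
      rw [← hi, ← hj, ← zpow_add, ← zpow_add, add_comm]
    rw [← hAcomm, commutator_eq_bot_iff_center_eq_top, eq_top_iff]
    intro x _
    rw [mem_center_iff]
    intro y
    exact hcomm y x
  have hHconn : ¬ Conn H := fun h => hconn (Conn.lift π hπs hG hHnc h)
  -- the centralizer of `A`
  have hcent : ∀ M : Subgroup H, A ≤ M → M ≠ ⊤ → M ≤ centralizer (A : Set H) := by
    intro M hAM hM m hm
    by_contra hcon
    apply hHconn
    refine conn_of_cyclic_quotient A hAn hAbot hmin hab hcycA M hM hAM ⟨m, hm, ?_⟩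
    rw [mem_centralizer_iff] at hcon
    push Not at hcon
    obtain ⟨a, ha, hne⟩ := hcon
    exact ⟨a, ha, fun h => hne h.symm⟩
  have hcentA : A ≤ centralizer (A : Set H) := by
    intro a ha
    rw [mem_centralizer_iff]
    intro b hb
    exact hab b hb a ha
  have hcenttop : centralizer (A : Set H) ≠ ⊤ := by
    intro h
    apply hAbot
    -- `A` central with cyclic quotient
    have hcomm : ∀ x y : H, x * y = y * x := by
      obtain ⟨z, hz⟩ := hcycA
      obtain ⟨g, rfl⟩ := QuotientGroup.mk_surjective z
      have hrep : ∀ x : H, ∃ i : ℤ, ∃ a ∈ A, x = g ^ i * a := by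
        intro x
        obtain ⟨i, hi⟩ := hz (x : H ⧸ A)
        simp only at hi
        refine ⟨i, (g ^ i)⁻¹ * x, ?_, by group⟩
        rw [← QuotientGroup.eq_one_iff, QuotientGroup.mk_mul, QuotientGroup.mk_inv,
          QuotientGroup.mk_zpow, hi]
        group
      have hc : ∀ x : H, ∀ a ∈ A, a * x = x * a := by
        intro x a ha
        have : x ∈ centralizer (A : Set H) := by rw [h]; trivial
        exact (mem_centralizer_iff.mp this) a ha
      intro x y
      obtain ⟨i, a, ha, rfl⟩ := hrep x
      obtain ⟨j, b, hb, rfl⟩ := hrep y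
      calc g ^ i * a * (g ^ j * b) = g ^ i * (a * (g ^ j * b)) := by group
        _ = g ^ i * ((g ^ j * b) * a) := by rw [hc _ a ha]
        _ = g ^ i * g ^ j * b * a := by group
        _ = g ^ j * g ^ i * b * a := by rw [← zpow_add, ← zpow_add, add_comm]
        _ = g ^ j * (g ^ i * b) * a := by group
        _ = g ^ j * (b * g ^ i) * a := by rw [hc (g ^ i) b hb]
        _ = g ^ j * b * (g ^ i * a) := by group
    rw [← hAcomm, commutator_eq_bot_iff_center_eq_top, eq_top_iff]
    intro x _
    rw [mem_center_iff]
    intro y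
    exact hcomm y x
  -- the cyclic group `H/A`, identified with the abelianization of `G`
  have hAbnt : Nontrivial (Abelianization G) := by
    rw [show Abelianization G = (G ⧸ commutator G) from rfl, QuotientGroup.nontrivial_iff]
    exact (Group.IsSolvable.commutator_lt_top_of_nontrivial G).ne
  let Z : Subgroup (Abelianization G) :=
    ((centralizer (A : Set H)).comap π).map (Abelianization.of : G →* Abelianization G)
  have hker : commutator G ≤ (centralizer (A : Set H)).comap π := by
    intro x hx
    exact hcentA ⟨x, hx, rfl⟩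
  apply isPGroup_of_cyclic Z
  · intro htop
    apply hcenttop
    rw [eq_top_iff]
    intro y _
    obtain ⟨x, rfl⟩ := hπs y
    have h1 : (Abelianization.of x) ∈ Z := by rw [htop]; trivial
    obtain ⟨x', hx', hxx⟩ := h1
    have h2 : x'⁻¹ * x ∈ commutator G := by
      rw [← Abelianization.ker_of, MonoidHom.mem_ker, map_mul, map_inv, hxx, inv_mul_cancel]
    have h3 : x = x' * (x'⁻¹ * x) := by group
    rw [h3]
    exact mul_mem hx' (hker h2)
  · intro M hM
    have h1 : (M.comap (Abelianization.of : G →* Abelianization G)).map π ≠ ⊤ := by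
      intro htop
      apply hM
      rw [eq_top_iff]
      intro y _
      obtain ⟨x, rfl⟩ := hof y
      have h2 : π x ∈ (M.comap (Abelianization.of : G →* Abelianization G)).map π := by
        rw [htop]; trivial
      obtain ⟨x', hx', hxx⟩ := h2
      have h3 : x'⁻¹ * x ∈ L := by
        rw [← hπ1, map_mul, map_inv, hxx, inv_mul_cancel]
      have h4 : x'⁻¹ * x ∈ commutator G := hLlt.le h3
      rw [← Abelianization.ker_of, MonoidHom.mem_ker, map_mul, map_inv] at h4
      have h5 : Abelianization.of x = Abelianization.of x' := (inv_mul_eq_one.mp h4).symm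
      rw [h5]; exact hx'
    have h2 : A ≤ (M.comap (Abelianization.of : G →* Abelianization G)).map π := by
      rw [hA]
      apply map_mono
      intro x hx
      rw [mem_comap]
      have : Abelianization.of x = 1 := by
        rw [← MonoidHom.mem_ker, Abelianization.ker_of]; exact hx
      rw [this]; exact M.one_mem
    have h3 := hcent _ h2 h1
    intro y hy
    obtain ⟨x, rfl⟩ := hof y
    exact ⟨x, h3 ⟨x, hy, rfl⟩, rfl⟩

end Pool.Agent.W_MP_28567f_al
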