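import Mathlib
import Pool.Agent.W_MP_28567f_al.Structure

/-!
Maximal subgroups of the 2-generated finite soluble groups with disconnected non-generating graph.
-/

open Subgroup

open scoped commutatorElement

namespace Pool.Agent.W_MP_28567f_al

variable {G : Type*} [Group G]

lemma comm_of_cyclic {C : Type*} [Group C] (hC : IsCyclic C) (x y : C) : x * y = y * x := by
  obtain ⟨z, hz⟩ := hC
  obtain ⟨i, hi⟩ := hz x
  obtain ⟨j, hj⟩ := hz y
  simp only at hi hj
  rw [← hi, ← hj, ← zpow_add, ← zpow_add, add_comm]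

/-- a quotient with no intermediate subgroups which is abelian has order `p` -/
theorem index_eq_prime [Finite G] {p : ℕ} (hp : p.Prime) (hGp : IsPGroup p (Abelianization G))
    {H : Type*} [Group H] (π : G →* H) (hπ : Function.Surjective π) (A : Subgroup H) [A.Normal]
    (hA : A ≠ ⊤) (hcomm : ∀ x y : H ⧸ A, x * y = y * x)
    (hmax : ∀ M : Subgroup H, A ≤ M → M = A ∨ M = ⊤) : A.index = p := by
  have _ : Finite H := Finite.of_surjective π hπ
  have _ : Nontrivial (H ⧸ A) := by rw [QuotientGroup.nontrivial_iff]; exact hA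
  have hcard : Nat.card (H ⧸ A) ≠ 1 := Finite.one_lt_card.ne'
  obtain ⟨r, hr, hrd⟩ := Nat.exists_prime_and_dvd hcard
  have _ : Fact r.Prime := ⟨hr⟩
  obtain ⟨x, hx⟩ := exists_prime_orderOf_dvd_card' r hrd
  have h1 : zpowers x = ⊤ := by
    have h2 : A ≤ (zpowers x).comap (QuotientGroup.mk' A) := by
      intro a ha
      rw [mem_comap]
      have : QuotientGroup.mk' A a = 1 := (QuotientGroup.eq_one_iff a).mpr ha
      rw [this]; exact one_mem _
    rcases hmax _ h2 with h3 | h3
    · exfalso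
      obtain ⟨y, rfl⟩ := QuotientGroup.mk'_surjective A x
      have h4 : y ∈ (zpowers (QuotientGroup.mk' A y)).comap (QuotientGroup.mk' A) :=
        mem_zpowers _
      rw [h3] at h4
      have h5 : QuotientGroup.mk' A y = 1 := (QuotientGroup.eq_one_iff y).mpr h4
      rw [h5, orderOf_one] at hx
      exact hr.one_lt.ne hx
    · rw [eq_top_iff]
      intro y _
      obtain ⟨z, rfl⟩ := QuotientGroup.mk'_surjective A y
      have : z ∈ (zpowers x).comap (QuotientGroup.mk' A) := by rw [h3]; trivial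
      exact this
  have h2 : Nat.card (H ⧸ A) = r := by
    rw [← hx, ← Nat.card_zpowers, h1]
    exact (Nat.card_congr (Subgroup.topEquiv).toEquiv).symm
  -- `H/A` is a quotient of the abelianization
  have h3 : commutator G ≤ ((QuotientGroup.mk' A).comp π).ker := by
    rw [commutator_def, commutator_le]
    intro a _ b _
    rw [MonoidHom.mem_ker, map_commutatorElement, commutatorElement_eq_one_iff_mul_comm]
    exact hcomm _ _
  let f : Abelianization G →* H ⧸ A := QuotientGroup.lift (commutator G) _ h3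
  have hf : Function.Surjective f := by
    intro z
    obtain ⟨y, rfl⟩ := QuotientGroup.mk'_surjective A z
    obtain ⟨x, rfl⟩ := hπ y
    exact ⟨Abelianization.of x, rfl⟩
  have h4 : IsPGroup p (H ⧸ A) := hGp.of_surjective f hf
  have _ : Fact p.Prime := ⟨hp⟩
  obtain ⟨n, hn⟩ := h4.exists_card_eq
  rw [h2] at hn
  have h5 : r = p := by
    have h6 : r ∣ p ^ n := by rw [← hn]
    exact (Nat.prime_dvd_prime_iff_eq hr hp).mp (hr.dvd_of_dvd_pow h6)
  rw [← h5]
  exact h2

/-- Step 2, non-normal maximal subgroups -/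
theorem frob_of_coatom [Finite G] [Group.IsSolvable G] (hG : ∃ a b : G, Gen2 a b)
    (hconn : ¬ Conn G) {p : ℕ} (hp : p.Prime)
    (hGp : IsPGroup p (Abelianization G)) (M : Subgroup G) (hM : IsCoatom M)
    (hMn : ¬ M.Normal) :
    ∃ A : Subgroup (G ⧸ M.normalCore), FrobLike A p := by
  classical
  set K := M.normalCore with hK
  have hKM : K ≤ M := normalCore_le M
  have hKne : K ≠ M := fun h => hMn (by rw [← h]; exact normalCore_normal M)
  set H := G ⧸ K with hH
  set π : G →* H := QuotientGroup.mk' K with hπ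
  have hπs : Function.Surjective π := QuotientGroup.mk'_surjective K
  have hπ1 : ∀ g : G, π g = 1 ↔ g ∈ K := fun g => QuotientGroup.eq_one_iff g
  set M' : Subgroup H := M.map π with hM'
  have hcomapM : M'.comap π = M := by
    rw [hM', comap_map_eq]
    have : π.ker = K := QuotientGroup.ker_mk' K
    rw [this]
    exact sup_eq_left.mpr hKM
  have hM'top : M' ≠ ⊤ := by
    intro h
    apply hM.1
    rw [← hcomapM, h, comap_top]
  have hM'max : ∀ T : Subgroup H, M' < T → T = ⊤ := by
    intro T hT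
    have h1 : M < T.comap π :=
      lt_of_eq_of_lt hcomapM.symm ((comap_lt_comap_of_surjective hπs).mpr hT)
    have h2 := hM.2 _ h1
    rw [eq_top_iff]
    intro y _
    obtain ⟨x, rfl⟩ := hπs y
    have : x ∈ T.comap π := by rw [h2]; trivial
    exact this
  have hcore : ∀ N : Subgroup H, N.Normal → N ≤ M' → N = ⊥ := by
    intro N hN hNM
    have h1 : N.comap π ≤ K := by
      have hn := hN.comap π
      have h2 : N.comap π ≤ M := le_of_le_of_eq (comap_mono hNM) hcomapM
      exact (normal_le_normalCore (N := N.comap π) (H := M)).mpr h2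
    rw [eq_bot_iff]
    intro z hz
    obtain ⟨x, rfl⟩ := hπs z
    rw [mem_bot, hπ1]
    exact h1 hz
  have hM'bot : M' ≠ ⊥ := by
    intro h
    apply hKne
    apply le_antisymm hKM
    intro x hx
    have : π x ∈ M' := ⟨x, hx, rfl⟩
    rw [h, mem_bot] at this
    exact (hπ1 x).mp this
  have hHnt : Nontrivial H := by
    rw [hH, QuotientGroup.nontrivial_iff]
    intro h
    apply hM.1
    rw [eq_top_iff, ← h]
    exact hKM
  obtain ⟨A, q, hAn, hAbot, hmin, hab, hq, hAq⟩ := exists_minNormal H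
  have hAM : ¬ A ≤ M' := fun h => hAbot (hcore A hAn h)
  have hsup : M' ⊔ A = ⊤ := by
    apply hM'max
    refine lt_of_le_of_ne le_sup_left (fun h => hAM ?_)
    rw [h]; exact le_sup_right
  have hMA : ∀ g : H, ∃ t ∈ M', ∃ a ∈ A, g = t * a := by
    intro g
    have : g ∈ M' ⊔ A := by rw [hsup]; trivial
    obtain ⟨t, ht, a, ha, h⟩ := mem_sup_of_normal_right.mp this
    exact ⟨t, ht, a, ha, h.symm⟩
  have hdisj : M' ⊓ A = ⊥ := by
    rcases eq_top_or_disjoint M' A hAn hmin hab hMA with h | h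
    · exact absurd h hM'top
    · exact h
  have hcent : ∀ g, (∀ a ∈ A, g * a = a * g) → g ∈ A := by
    intro g hg
    obtain ⟨t, ht, a, ha, rfl⟩ := hMA g
    have hN : (M' ⊓ centralizer (A : Set H)).Normal := by
      refine ⟨fun n hn x => ?_⟩
      obtain ⟨s, hs, b, hb, rfl⟩ := hMA x
      have hn1 := hn.1
      have hn2 : b * n = n * b := (mem_centralizer_iff.mp hn.2) b hb
      have h1 : s * b * n * (s * b)⁻¹ = s * n * s⁻¹ := by
        calc s * b * n * (s * b)⁻¹ = s * (b * n) * b⁻¹ * s⁻¹ := by group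
          _ = s * n * s⁻¹ := by rw [hn2]; group
      rw [h1]
      refine mem_inf.mpr ⟨M'.mul_mem (M'.mul_mem hs hn1) (M'.inv_mem hs), ?_⟩
      have : (centralizer (A : Set H)).Normal := inferInstance
      exact this.conj_mem n hn.2 s
    have h1 := hcore _ hN inf_le_left
    have h2 : t ∈ M' ⊓ centralizer (A : Set H) := by
      refine mem_inf.mpr ⟨ht, ?_⟩
      rw [mem_centralizer_iff]
      intro b hb
      have h3 := hg b hb
      have h4 : a * b = b * a := hab a ha b hb
      have h5 : t * b * a = b * t * a := by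
        calc t * b * a = t * (b * a) := by group
          _ = t * a * b := by rw [← h4]; group
          _ = b * (t * a) := h3
          _ = b * t * a := by group
      exact (mul_right_cancel h5).symm
    rw [h1, mem_bot] at h2
    rw [h2, one_mul]
    exact ha
  have hAtop : A ≠ ⊤ := by
    rintro rfl
    rw [inf_top_eq] at hdisj
    exact hM'bot hdisj
  have hHnc : ¬ IsCyclic H := by
    intro hc
    apply hAtop
    rw [eq_top_iff]
    intro g _
    exact hcent g (fun a _ => comm_of_cyclic hc g a)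
  have hHconn : ¬ Conn H := fun h => hconn (Conn.lift π hπs hG hHnc h)
  have hcyc : IsCyclic (H ⧸ A) := by
    by_contra hcyc
    exact hHconn (conn_of_primitive A M' hAn hAbot hmin hab hq hAq hcent hdisj hMA hcyc)
  have hmax : ∀ T : Subgroup H, A ≤ T → T = A ∨ T = ⊤ := by
    intro T hT
    by_contra hcon
    push Not at hcon
    have h1 : ¬ T ≤ A := fun h => hcon.1 (le_antisymm h hT)
    obtain ⟨m, hm, hmA⟩ := SetLike.not_le_iff_exists.mp h1
    apply hHconn
    refine conn_of_cyclic_quotient A hAn hAbot hmin hab hcyc T hcon.2 hT ⟨m, hm, ?_⟩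
    by_contra h2
    push Not at h2
    exact hmA (hcent m h2)
  refine ⟨A, hp, hAn, hAbot, hmin, hab, hcent, ?_, q, hq, hAq⟩
  exact index_eq_prime hp hGp π hπs A hAtop (comm_of_cyclic hcyc) hmax

/-- normal maximal subgroups -/
theorem coatom_normal [Finite G] [Group.IsSolvable G] {p : ℕ} (hp : p.Prime)
    (hGp : IsPGroup p (Abelianization G)) (M : Subgroup G) (hM : IsCoatom M)
    (hMn : M.Normal) : commutator G ≤ M ∧ M.index = p := by
  have hnt : Nontrivial (G ⧸ M) := by rw [QuotientGroup.nontrivial_iff]; exact hM.1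
  have h1 : commutator G ≤ M := by
    have h2 := Group.IsSolvable.commutator_lt_top_of_nontrivial (G ⧸ M)
    have h3 : M ≤ (commutator (G ⧸ M)).comap (QuotientGroup.mk' M) := by
      intro x hx
      rw [mem_comap]
      have : QuotientGroup.mk' M x = 1 := (QuotientGroup.eq_one_iff x).mpr hx
      rw [this]; exact one_mem _
    have h4 : commutator G ≤ (commutator (G ⧸ M)).comap (QuotientGroup.mk' M) := by
      rw [← map_le_iff_le_comap, commutator_def, commutator_def, map_commutator]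
      exact commutator_mono le_top le_top
    rcases h3.lt_or_eq with h5 | h5
    · exfalso
      have h6 := hM.2 _ h5
      apply h2.ne
      rw [eq_top_iff]
      intro y _
      obtain ⟨x, rfl⟩ := QuotientGroup.mk'_surjective M y
      have : x ∈ (commutator (G ⧸ M)).comap (QuotientGroup.mk' M) := by rw [h6]; trivial
      exact this
    · rw [h5]; exact h4
  refine ⟨h1, ?_⟩
  refine index_eq_prime hp hGp (MonoidHom.id G) Function.surjective_id M hM.1 ?_ ?_
  · intro x y
    obtain ⟨x, rfl⟩ := QuotientGroup.mk_surjective x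
    obtain ⟨y, rfl⟩ := QuotientGroup.mk_surjective y
    rw [← QuotientGroup.mk_mul, ← QuotientGroup.mk_mul, QuotientGroup.eq]
    apply h1
    have h2 : (x * y)⁻¹ * (y * x) = ⁅y⁻¹, x⁻¹⁆ := by rw [commutatorElement_def]; group
    rw [h2, _root_.commutator_def]
    exact commutator_mem_commutator (mem_top _) (mem_top _)
  · intro T hT
    rcases hT.lt_or_eq with h | h
    · exact Or.inr (hM.2 T h)
    · exact Or.inl h.symm

lemma FrobLike.surj {X : Type*} [Group X] [Finite X] {A : Subgroup X} {p : ℕ}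
    (h : FrobLike A p) {y : X} (hy : y ∉ A) {a : X} (ha : a ∈ A) :
    ∃ a' ∈ A, y * a' * y⁻¹ * a'⁻¹ = a := by
  have hn := h.normal
  let φ : A → A := fun a => ⟨y * a * y⁻¹ * (a : X)⁻¹,
    A.mul_mem (hn.conj_mem _ a.2 y) (A.inv_mem a.2)⟩
  have hφ : Function.Injective φ := by
    intro b c hbc
    have h1 : y * (b : X) * y⁻¹ * (b : X)⁻¹ = y * c * y⁻¹ * (c : X)⁻¹ := congrArg Subtype.val hbc
    have h2 : (b : X)⁻¹ * c = c * (b : X)⁻¹ := h.comm _ (A.inv_mem b.2) _ c.2
    have h3 : y * ((c : X)⁻¹ * b) = ((c : X)⁻¹ * b) * y := by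
      have e1 : y * (b : X) * y⁻¹ = y * c * y⁻¹ * (c : X)⁻¹ * b := by rw [← h1]; group
      have hcy : y * (c : X) * y⁻¹ ∈ A := hn.conj_mem _ c.2 y
      have e2 : y * ((c : X)⁻¹ * b) * y⁻¹ = (c : X)⁻¹ * b := by
        calc y * ((c : X)⁻¹ * b) * y⁻¹ = (y * (c : X) * y⁻¹)⁻¹ * (y * b * y⁻¹) := by group
          _ = (y * (c : X) * y⁻¹)⁻¹ * (y * c * y⁻¹ * (c : X)⁻¹ * b) := by rw [e1]
          _ = (c : X)⁻¹ * b := by group
      calc y * ((c : X)⁻¹ * b) = (y * ((c : X)⁻¹ * b) * y⁻¹) * y := by group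
        _ = _ := by rw [e2]
    have h4 := h.fix hy (A.mul_mem (A.inv_mem c.2) b.2) h3
    exact (Subtype.ext (inv_mul_eq_one.mp h4)).symm
  obtain ⟨a', ha'⟩ := (Finite.surjective_of_injective hφ) ⟨a, ha⟩
  exact ⟨a', a'.2, congrArg Subtype.val ha'⟩

/-- Step 3 -/
theorem comap_eq [Finite G] (hG : ∃ a b : G, Gen2 a b)
    (hconn : ¬ Conn G) {p : ℕ} (K₁ K₂ : Subgroup G) [K₁.Normal] [K₂.Normal]
    {A₁ : Subgroup (G ⧸ K₁)} {A₂ : Subgroup (G ⧸ K₂)} (h₁ : FrobLike A₁ p)
    (h₂ : FrobLike A₂ p) :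
    A₁.comap (QuotientGroup.mk' K₁) = A₂.comap (QuotientGroup.mk' K₂) := by
  classical
  by_contra hne
  set R₁ := A₁.comap (QuotientGroup.mk' K₁) with hR₁
  set R₂ := A₂.comap (QuotientGroup.mk' K₂) with hR₂
  have hn₁ := h₁.normal
  have hn₂ := h₂.normal
  have hR₁n : R₁.Normal := hn₁.comap _
  have hR₂n : R₂.Normal := hn₂.comap _
  have hi₁ : R₁.index = p := by
    rw [hR₁, index_comap_of_surjective _ (QuotientGroup.mk'_surjective K₁)]; exact h₁.index
  have hi₂ : R₂.index = p := by
    rw [hR₂, index_comap_of_surjective _ (QuotientGroup.mk'_surjective K₂)]; exact h₂.index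
  have hR12 : ¬ R₁ ≤ R₂ := by
    intro h
    apply hne
    apply le_antisymm h
    have h1 := relIndex_mul_index h
    rw [hi₁, hi₂] at h1
    have h2 : R₁.relIndex R₂ = 1 := by
      have := h₁.prime.pos
      exact Nat.eq_of_mul_eq_mul_right this (by rw [h1, one_mul])
    exact relIndex_eq_one.mp h2
  have hR21 : ¬ R₂ ≤ R₁ := by
    intro h
    apply hne
    refine le_antisymm ?_ h
    have h1 := relIndex_mul_index h
    rw [hi₁, hi₂] at h1
    have h2 : R₂.relIndex R₁ = 1 := by
      have := h₁.prime.pos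
      exact Nat.eq_of_mul_eq_mul_right this (by rw [h1, one_mul])
    exact relIndex_eq_one.mp h2
  -- `K₂` is not contained in `R₁`
  have hK₂ : ¬ K₂ ≤ R₁ := by
    intro h
    obtain ⟨r, hr, hr'⟩ := SetLike.not_le_iff_exists.mp hR12
    apply hR21
    intro a ha
    obtain ⟨b, hb, hbe⟩ := h₂.surj (y := QuotientGroup.mk' K₂ r) hr' (a := QuotientGroup.mk' K₂ a) ha
    obtain ⟨b, rfl⟩ := QuotientGroup.mk'_surjective K₂ b
    have h1 : (r * b * r⁻¹ * b⁻¹)⁻¹ * a ∈ K₂ := by
      rw [← QuotientGroup.eq_one_iff]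
      change QuotientGroup.mk' K₂ ((r * b * r⁻¹ * b⁻¹)⁻¹ * a) = 1
      rw [map_mul, map_inv, map_mul, map_mul, map_mul, map_inv, map_inv, hbe, inv_mul_cancel]
    have h2 : r * b * r⁻¹ * b⁻¹ ∈ R₁ := by
      have : r * b * r⁻¹ * b⁻¹ = r * (b * r⁻¹ * b⁻¹) := by group
      rw [this]
      exact R₁.mul_mem hr (hR₁n.conj_mem _ (R₁.inv_mem hr) b)
    have h3 : a = (r * b * r⁻¹ * b⁻¹) * ((r * b * r⁻¹ * b⁻¹)⁻¹ * a) := by group
    rw [h3]
    exact R₁.mul_mem h2 (h h1)
  obtain ⟨k, hk, hkR⟩ := SetLike.not_le_iff_exists.mp hK₂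
  have hR₁sup : R₁ ≤ K₁ ⊔ K₂ := by
    intro a ha
    obtain ⟨b, hb, hbe⟩ := h₁.surj (y := QuotientGroup.mk' K₁ k) hkR (a := QuotientGroup.mk' K₁ a) ha
    obtain ⟨b, rfl⟩ := QuotientGroup.mk'_surjective K₁ b
    have h1 : (k * b * k⁻¹ * b⁻¹)⁻¹ * a ∈ K₁ := by
      rw [← QuotientGroup.eq_one_iff]
      change QuotientGroup.mk' K₁ ((k * b * k⁻¹ * b⁻¹)⁻¹ * a) = 1
      rw [map_mul, map_inv, map_mul, map_mul, map_mul, map_inv, map_inv, hbe, inv_mul_cancel]
    have h2 : k * b * k⁻¹ * b⁻¹ ∈ K₂ := by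
      have : k * b * k⁻¹ * b⁻¹ = k * (b * k⁻¹ * b⁻¹) := by group
      rw [this]
      exact K₂.mul_mem hk (Subgroup.Normal.conj_mem inferInstance _ (K₂.inv_mem hk) b)
    have h3 : a = (k * b * k⁻¹ * b⁻¹) * ((k * b * k⁻¹ * b⁻¹)⁻¹ * a) := by group
    rw [h3]
    exact mul_mem (mem_sup_right h2) (mem_sup_left h1)
  have hsup : K₁ ⊔ K₂ = ⊤ := by
    rw [eq_top_iff]
    intro g _
    obtain ⟨i, a, ha, hg⟩ := h₁.exists_rep (u := QuotientGroup.mk' K₁ k) hkR (QuotientGroup.mk' K₁ g)
    obtain ⟨a, rfl⟩ := QuotientGroup.mk'_surjective K₁ a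
    have h1 : (k ^ i * a)⁻¹ * g ∈ K₁ := by
      rw [← QuotientGroup.eq_one_iff]
      change QuotientGroup.mk' K₁ ((k ^ i * a)⁻¹ * g) = 1
      rw [map_mul, map_inv, map_mul, map_zpow, hg, inv_mul_cancel]
    have h3 : g = (k ^ i * a) * ((k ^ i * a)⁻¹ * g) := by group
    rw [h3]
    exact mul_mem (mul_mem (mem_sup_right (K₂.zpow_mem hk i)) (hR₁sup ha)) (mem_sup_left h1)
  apply hconn
  have hf := crt_surjective K₁ K₂ hsup
  refine Conn.lift _ hf hG ?_ (conn_prod_frob h₁ h₂)
  exact fun h => h₁.not_cyclic (Group.isCyclic_prod_iff.mp h).1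

theorem tied_of_not_conn [Finite G] [Group.IsSolvable G]
    (hG : ∃ a b : G, Gen2 a b) (hnc : ¬ IsCyclic G) (hconn : ¬ Conn G) : Tied G := by
  classical
  obtain ⟨p, hp, hGp⟩ := abelianization_pgroup hG hnc hconn
  have hnt : Nontrivial G := by
    by_contra h
    rw [not_nontrivial_iff_subsingleton] at h
    exact hnc inferInstance
  refine ⟨p, hp, hGp, ?_⟩
  by_cases hall : ∀ M : Subgroup G, IsCoatom M → M.Normal
  · obtain ⟨M, hM, -⟩ := (eq_top_or_exists_le_coatom (⊥ : Subgroup G)).resolve_left bot_ne_top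
    obtain ⟨h1, h2⟩ := coatom_normal hp hGp M hM (hall M hM)
    refine ⟨M, hall M hM, h2, ?_⟩
    rw [frattini, Order.radical]
    refine le_iInf₂ fun N hN => ?_
    refine le_trans ?_ (coatom_normal hp hGp N hN (hall N hN)).1
    rw [commutator_def]
    exact commutator_mono le_top le_top
  · push Not at hall
    obtain ⟨M, hM, hMn⟩ := hall
    obtain ⟨A, hA⟩ := frob_of_coatom hG hconn hp hGp M hM hMn
    have hAn := hA.normal
    refine ⟨A.comap (QuotientGroup.mk' M.normalCore), hAn.comap _, ?_, ?_⟩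
    · rw [index_comap_of_surjective _ (QuotientGroup.mk'_surjective _)]; exact hA.index
    · rw [frattini, Order.radical]
      refine le_iInf₂ fun N hN => ?_
      by_cases hNn : N.Normal
      · refine le_trans ?_ (coatom_normal hp hGp N hN hNn).1
        rw [commutator_def]
        exact commutator_mono le_top le_top
      · obtain ⟨B, hB⟩ := frob_of_coatom hG hconn hp hGp N hN hNn
        rw [comap_eq hG hconn M.normalCore N.normalCore hA hB]
        refine le_trans ?_ (normalCore_le N)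
        rw [commutator_le]
        intro a ha b hb
        rw [← QuotientGroup.eq_one_iff]
        change QuotientGroup.mk' N.normalCore ⁅a, b⁆ = 1
        rw [map_commutatorElement, commutatorElement_eq_one_iff_mul_comm]
        exact hB.comm _ ha _ hb

end Pool.Agent.W_MP_28567f_al
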