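import Mathlib
import Pool.Agent.W_MP_28567f_al.Structure2

/-!
Converse direction: in a tied group, the elements inside and outside of `R` always generate; and
the derived subgroup of a tied group is nilpotent.
-/

open Subgroup

open scoped commutatorElement

namespace Pool.Agent.W_MP_28567f_al

variable {G : Type*} [Group G]

lemma exists_rep_of_prime_index {p : ℕ} (hp : p.Prime) (R : Subgroup G) (hRn : R.Normal)
    (hRi : R.index = p) {y : G} (hy : y ∉ R) (g : G) : ∃ k : ℤ, ∃ r ∈ R, g = y ^ k * r := by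
  have hc : Nat.card (G ⧸ R) = p := hRi
  have _ : Fact p.Prime := ⟨hp⟩
  have h1 : (y : G ⧸ R) ≠ 1 := by rwa [Ne, QuotientGroup.eq_one_iff]
  have h2 : (g : G ⧸ R) ∈ zpowers (y : G ⧸ R) := mem_zpowers_of_prime_card hc h1
  obtain ⟨k, hk⟩ := mem_zpowers_iff.mp h2
  refine ⟨k, (y ^ k)⁻¹ * g, ?_, by group⟩
  rw [← QuotientGroup.eq_one_iff, QuotientGroup.mk_mul, QuotientGroup.mk_inv,
      QuotientGroup.mk_zpow, hk]
  group

theorem gen2_of_tied [Finite G] {p : ℕ} (hp : p.Prime) (hGp : IsPGroup p (Abelianization G))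
    (R : Subgroup G) (hRn : R.Normal) (hRi : R.index = p) (hR : ⁅R, R⁆ ≤ frattini G)
    {x y : G} (hx : x ∈ R) (hcyc : IsCyclic (G ⧸ normalClosure {x})) (hy : y ∉ R) :
    Gen2 x y := by
  classical
  set L := normalClosure ({x} : Set G) with hL
  have hLR : L ≤ R := normalClosure_le_normal (by simpa using hx)
  have _ : Fact p.Prime := ⟨hp⟩
  have hcomm : ∀ a b : G ⧸ L, a * b = b * a := comm_of_cyclic hcyc
  -- `G/L` is a `p`-group
  have hLp : IsPGroup p (G ⧸ L) := by
    have h3 : commutator G ≤ (QuotientGroup.mk' L).ker := by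
      rw [_root_.commutator_def, commutator_le]
      intro a _ b _
      rw [MonoidHom.mem_ker, map_commutatorElement, commutatorElement_eq_one_iff_mul_comm]
      exact hcomm _ _
    let f : Abelianization G →* G ⧸ L := QuotientGroup.lift (commutator G) _ h3
    have hf : Function.Surjective f := by
      intro z
      obtain ⟨y, rfl⟩ := QuotientGroup.mk'_surjective L z
      exact ⟨Abelianization.of y, rfl⟩
    exact hGp.of_surjective f hf
  obtain ⟨n, hn⟩ := hLp.exists_card_eq
  obtain ⟨z, hz⟩ := hcyc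
  obtain ⟨g₀, rfl⟩ := QuotientGroup.mk_surjective z
  obtain ⟨k, hk⟩ := hz (y : G ⧸ L)
  simp only at hk
  have hkp : ¬ (p : ℤ) ∣ k := by
    rintro ⟨m, rfl⟩
    apply hy
    have h1 : (g₀ ^ ((p : ℤ) * m))⁻¹ * y ∈ L := by
      rw [← QuotientGroup.eq_one_iff, QuotientGroup.mk_mul, QuotientGroup.mk_inv,
        QuotientGroup.mk_zpow, hk, inv_mul_cancel]
    have h2 : g₀ ^ ((p : ℤ) * m) ∈ R := by
      rw [zpow_mul, zpow_natCast]
      apply R.zpow_mem
      rw [← QuotientGroup.eq_one_iff, QuotientGroup.mk_pow, ← hRi]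
      exact pow_card_eq_one'
    have h3 : y = g₀ ^ ((p : ℤ) * m) * ((g₀ ^ ((p : ℤ) * m))⁻¹ * y) := by group
    rw [h3]
    exact R.mul_mem h2 (hLR h1)
  have hco : IsCoprime k ((p ^ n : ℕ) : ℤ) := by
    rw [Nat.cast_pow]
    apply IsCoprime.pow_right
    rw [isCoprime_comm, Prime.coprime_iff_not_dvd (Nat.prime_iff_prime_int.mp hp)]
    exact hkp
  obtain ⟨a, b, hab⟩ := hco
  have hg₀ : (g₀ : G ⧸ L) = (y : G ⧸ L) ^ a := by
    have h1 : (g₀ : G ⧸ L) = (g₀ : G ⧸ L) ^ (a * k + b * ((p ^ n : ℕ) : ℤ)) := by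
      rw [hab, zpow_one]
    conv_lhs => rw [h1]
    rw [zpow_add, mul_comm a, zpow_mul, hk, mul_comm b, zpow_mul, zpow_natCast, ← hn,
      pow_card_eq_one', one_zpow, mul_one]
  set T := closure {x, y} with hT
  have hxT : x ∈ T := subset_closure (by simp)
  have hyT : y ∈ T := subset_closure (by simp)
  have hLT : L ≤ T ⊔ frattini G := by
    rw [hL]
    unfold normalClosure
    rw [closure_le]
    intro z hz
    rw [Group.mem_conjugatesOfSet_iff] at hz
    obtain ⟨w, hw, hwz⟩ := hz
    rw [Set.mem_singleton_iff] at hw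
    subst hw
    obtain ⟨g, rfl⟩ := isConj_iff.mp hwz
    obtain ⟨i, r, hr, rfl⟩ := exists_rep_of_prime_index hp R hRn hRi hy g
    have h1 : y ^ i * r * w * (y ^ i * r)⁻¹ = y ^ i * ⁅r, w⁆ * w * (y ^ i)⁻¹ := by
      rw [commutatorElement_def]; group
    rw [h1]
    have h2 : ⁅r, w⁆ ∈ frattini G := hR (commutator_mem_commutator hr hx)
    have h3 : y ^ i ∈ T ⊔ frattini G := mem_sup_left (T.zpow_mem hyT i)
    exact mul_mem (mul_mem (mul_mem h3 (mem_sup_right h2)) (mem_sup_left hxT)) (inv_mem h3)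
  have htop : T ⊔ frattini G = ⊤ := by
    rw [eq_top_iff]
    intro g _
    obtain ⟨i, hi⟩ := hz (g : G ⧸ L)
    simp only at hi
    have h1 : ((y ^ a) ^ i)⁻¹ * g ∈ L := by
      rw [← QuotientGroup.eq_one_iff, QuotientGroup.mk_mul, QuotientGroup.mk_inv,
        QuotientGroup.mk_zpow, QuotientGroup.mk_zpow, ← hg₀, hi, inv_mul_cancel]
    have h3 : g = (y ^ a) ^ i * (((y ^ a) ^ i)⁻¹ * g) := by group
    rw [h3]
    exact mul_mem (mem_sup_left (T.zpow_mem (T.zpow_mem hyT a) i)) (hLT h1)
  exact frattini_nongenerating htop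

/-- a normal subgroup `R` with `⁅R, R⁆ ≤ Φ(G) ≤ R` is nilpotent -/
theorem nilpotent_of_commutator_le [Finite G] (R : Subgroup G) (hRn : R.Normal)
    (hR : ⁅R, R⁆ ≤ frattini G) (hΦ : frattini G ≤ R) : Group.IsNilpotent R := by
  classical
  refine ((Group.isNilpotent_of_finite_tfae (G := R)).out 0 3 rfl rfl).mpr ?_
  intro r _ P
  set P' : Subgroup G := (P : Subgroup R).map R.subtype with hP'
  have hP'R : P' ≤ R := by
    rintro _ ⟨x, -, rfl⟩
    exact x.2
  set N : Subgroup G := P' ⊔ frattini G with hN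
  have hNR : N ≤ R := sup_le hP'R hΦ
  have hΦn : (frattini G).Normal := inferInstance
  have hNn : N.Normal := by
    refine ⟨fun n hn g => ?_⟩
    obtain ⟨x, hx, f, hf, rfl⟩ := mem_sup_of_normal_right.mp hn
    have h1 : g * (x * f) * g⁻¹ = (g * x * g⁻¹) * (g * f * g⁻¹) := by group
    rw [h1]
    refine mul_mem ?_ (mem_sup_right (hΦn.conj_mem f hf g))
    obtain ⟨⟨x, hxR⟩, hxP, rfl⟩ := hx
    -- Sylow's theorem in `R`
    obtain ⟨u, hu⟩ := MulAction.exists_smul_eq R P ((MulAut.conjNormal g : MulAut R) • P)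
    have h2 : (MulAut.conjNormal g : MulAut R) • (⟨x, hxR⟩ : R) ∈
        (((MulAut.conjNormal g : MulAut R) • P : Sylow r R) : Subgroup R) :=
      smul_mem_pointwise_smul _ _ _ hxP
    rw [← hu, Sylow.coe_subgroup_smul] at h2
    rw [mem_smul_pointwise_iff_exists] at h2
    obtain ⟨s, hs, hs'⟩ := h2
    have h3 : (u : G) * s * (u : G)⁻¹ = g * x * g⁻¹ := by
      have := congrArg (Subtype.val) hs'
      simpa [MulAut.smul_def] using this
    change g * x * g⁻¹ ∈ N
    rw [← h3]
    have h4 : (u : G) * s * (u : G)⁻¹ = ⁅(u : G), (s : G)⁆ * s := by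
      rw [commutatorElement_def]; group
    rw [h4]
    exact mul_mem (mem_sup_right (hR (commutator_mem_commutator u.2 s.2)))
      (mem_sup_left ⟨s, hs, rfl⟩)
  -- `P'` is a Sylow subgroup of `N`
  have hP'N : P' ≤ N := le_sup_left
  have hp1 : IsPGroup r (P'.subgroupOf N) := by
    have h1 : IsPGroup r P' := P.isPGroup'.map R.subtype
    exact h1.of_equiv (subgroupOfEquivOfLe hP'N).symm
  have hp2 : ¬ r ∣ (P'.subgroupOf N).index := by
    intro h1
    have h2 : P'.relIndex N * N.relIndex R = P'.relIndex R := relIndex_mul_relIndex _ _ _ hP'N hNR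
    have h3 : P'.relIndex R = (P : Subgroup R).index := by
      rw [hP', relIndex, subgroupOf, comap_map_eq_self_of_injective R.subtype_injective]
    have h4 : r ∣ (P : Subgroup R).index := by
      rw [← h3, ← h2]
      exact Dvd.dvd.mul_right h1 _
    exact P.not_dvd_index h4
  let Q : Sylow r N := hp1.toSylow hp2
  have hQmap : ((Q : Subgroup N).map N.subtype) = P' := by
    change (P'.subgroupOf N).map N.subtype = P'
    rw [subgroupOf_map_subtype, inf_eq_left.mpr hP'N]
  have hfr := Q.normalizer_sup_eq_top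
  rw [hQmap] at hfr
  have hP'norm : P' ≤ normalizer (P' : Set G) := le_normalizer
  have htop : normalizer (P' : Set G) ⊔ frattini G = ⊤ := by
    rw [eq_top_iff, ← hfr]
    refine sup_le le_sup_left (sup_le (hP'norm.trans le_sup_left) le_sup_right)
  have h5 := frattini_nongenerating htop
  have hP'normal : P'.Normal := normalizer_eq_top_iff.mp h5
  have h6 : (P : Subgroup R) = P'.comap R.subtype := by
    rw [hP', comap_map_eq_self_of_injective R.subtype_injective]
  rw [h6]
  exact hP'normal.comap R.subtype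

theorem commutator_nilpotent_of_tied [Finite G] (h : Tied G) :
    Group.IsNilpotent (commutator G) := by
  obtain ⟨p, hp, -, R, hRn, hRi, hR⟩ := h
  have _ : Fact p.Prime := ⟨hp⟩
  have hc : Nat.card (G ⧸ R) = p := hRi
  have hcyc : IsCyclic (G ⧸ R) := isCyclic_of_prime_card hc
  have hcomm : commutator G ≤ R := by
    rw [_root_.commutator_def, commutator_le]
    intro a _ b _
    rw [← QuotientGroup.eq_one_iff]
    change QuotientGroup.mk' R ⁅a, b⁆ = 1
    rw [map_commutatorElement, commutatorElement_eq_one_iff_mul_comm]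
    exact comm_of_cyclic hcyc _ _
  have hΦ : frattini G ≤ R := by
    apply frattini_le_coatom
    refine ⟨?_, fun T hT => ?_⟩
    · rintro rfl
      rw [index_top] at hRi
      exact hp.one_lt.ne hRi
    · obtain ⟨y, hy, hyR⟩ := SetLike.exists_of_lt hT
      rw [eq_top_iff]
      intro g _
      obtain ⟨k, r, hr, rfl⟩ := exists_rep_of_prime_index hp R hRn hRi hyR g
      exact T.mul_mem (T.zpow_mem hy k) (hT.le hr)
  have hRnil := nilpotent_of_commutator_le R hRn hR hΦ
  exact (Group.isNilpotent_congr (subgroupOfEquivOfLe hcomm)).mp inferInstance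

end Pool.Agent.W_MP_28567f_al
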