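import Mathlib
import Pool.Agent.W_MP_28567f_al.TiedGen

/-!
The classification of the families of finite soluble groups with connected graphs `Γ_F(G)`.
-/

open Subgroup

open scoped commutatorElement

namespace Pool.Agent.W_MP_28567f_al

/-- connectivity relation in `Γ_F(G)` -/
def Rch (F : GroupFamily) (G : Type) [Group G] (x y : G) : Prop :=
  Relation.ReflTransGen (fun a b => a ∉ isol F G ∧ b ∉ isol F G ∧ (Lam F G).Adj a b) x y

lemma Rch.reachable {F : GroupFamily} {G : Type} [Group G] {x y : G} (h : Rch F G x y)
    (hx : x ∉ isol F G) (hy : y ∉ isol F G) :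
    (Gam F G).Reachable ⟨x, hx⟩ ⟨y, hy⟩ := by
  induction h with
  | refl => exact SimpleGraph.Reachable.refl _
  | tail _ hbc ih =>
    refine (ih hbc.1).trans (SimpleGraph.Adj.reachable ?_)
    exact hbc.2.2

lemma rch_of_reachable {F : GroupFamily} {G : Type} [Group G] {x y : ((isol F G)ᶜ : Set G)}
    (h : (Gam F G).Reachable x y) : Rch F G x y := by
  obtain ⟨w⟩ := h
  induction w with
  | nil => exact Relation.ReflTransGen.refl
  | @cons u v w h p ih =>
    exact Relation.ReflTransGen.head ⟨u.2, v.2, h⟩ ih

lemma preconnected_of_rch {F : GroupFamily} {G : Type} [Group G]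
    (h : ∀ x y : G, x ∉ isol F G → y ∉ isol F G → Rch F G x y) : (Gam F G).Preconnected := by
  rintro ⟨x, hx⟩ ⟨y, hy⟩
  exact (h x y hx hy).reachable hx hy

/-- membership of a 2-generated subgroup of a subgroup -/
noncomputable def closureEquiv {G : Type} [Group G] (K : Subgroup G) (x y : K) :
    (closure {x, y} : Subgroup K) ≃* (closure {(x : G), (y : G)} : Subgroup G) :=
  ((closure {x, y} : Subgroup K).equivMapOfInjective K.subtype K.subtype_injective).trans
    (MulEquiv.subgroupCongr (by
      rw [MonoidHom.map_closure, Set.image_pair]; rfl))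

lemma mem_iff_sub {F : GroupFamily} {G : Type} [Group G] (K : Subgroup G) (x y : K) :
    F.mem (closure {x, y} : Subgroup K) ↔ F.mem (closure {(x : G), (y : G)} : Subgroup G) :=
  ⟨F.iso (closureEquiv K x y), F.iso (closureEquiv K x y).symm⟩

lemma notMem_isol_of_sub {F : GroupFamily} {G : Type} [Group G] (K : Subgroup G) {x : K}
    (h : x ∉ isol F K) : (x : G) ∉ isol F G := by
  intro hx
  apply h
  intro y hy
  rw [mem_iff_sub]
  exact hx y (fun h => hy (Subtype.ext h))

lemma Rch.ofSub {F : GroupFamily} {G : Type} [Group G] (K : Subgroup G) {x y : K}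
    (h : Rch F K x y) : Rch F G (x : G) (y : G) := by
  induction h with
  | refl => exact Relation.ReflTransGen.refl
  | tail _ hbc ih =>
    refine Relation.ReflTransGen.tail ih ⟨notMem_isol_of_sub K hbc.1, notMem_isol_of_sub K hbc.2.1,
      fun h => hbc.2.2.1 (Subtype.ext h), ?_⟩
    exact (mem_iff_sub K _ _).mp hbc.2.2.2

lemma mem_of_closure_eq_top {F : GroupFamily} {G : Type} [Group G] {x y : G}
    (h : closure {x, y} = (⊤ : Subgroup G)) :
    F.mem (closure {x, y} : Subgroup G) ↔ F.mem G := by
  constructor
  · intro h1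
    exact F.iso ((MulEquiv.subgroupCongr h).trans Subgroup.topEquiv) h1
  · intro h1
    exact F.iso ((MulEquiv.subgroupCongr h).trans Subgroup.topEquiv).symm h1

/-- the subgroup generated by `x` and `y` viewed inside itself -/
lemma notMem_isol_closure {F : GroupFamily} {G : Type} [Group G] {x y : G} (hxy : x ≠ y)
    (h : ¬ F.mem (closure {x, y} : Subgroup G)) :
    (⟨x, subset_closure (by simp)⟩ : (closure {x, y} : Subgroup G)) ∉
      isol F (closure {x, y} : Subgroup G) := by
  intro hx
  apply h
  have h1 := hx ⟨y, subset_closure (by simp)⟩ (fun h2 => hxy (congrArg Subtype.val h2).symm)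
  rw [mem_iff_sub] at h1
  exact h1

lemma notMem_isol_closure' {F : GroupFamily} {G : Type} [Group G] {x y : G} (hxy : x ≠ y)
    (h : ¬ F.mem (closure {x, y} : Subgroup G)) :
    (⟨y, subset_closure (by simp)⟩ : (closure {x, y} : Subgroup G)) ∉
      isol F (closure {x, y} : Subgroup G) := by
  intro hx
  apply h
  have h1 := hx ⟨x, subset_closure (by simp)⟩ (fun h2 => hxy (congrArg Subtype.val h2))
  rw [mem_iff_sub] at h1
  simp only at h1
  rw [Set.pair_comm]
  exact h1

/-- Claim 1: for soluble groups -/
theorem rch_of_criterion {F : GroupFamily} (hC : Criterion F) (n : ℕ) :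
    ∀ (G : Type) [Group G] [Finite G] [Group.IsSolvable G], Nat.card G = n →
      ∀ x y : G, x ∉ isol F G → y ∉ isol F G → Rch F G x y := by
  induction n using Nat.strong_induction_on with
  | _ n ih =>
  intro G _ _ _ hn x y hx hy
  -- pairs generating a proper subgroup
  have pair : ∀ a b : G, a ∉ isol F G → b ∉ isol F G → closure {a, b} ≠ (⊤ : Subgroup G) →
      Rch F G a b := by
    intro a b ha hb hab
    by_cases hab' : a = b
    · subst hab'; exact Relation.ReflTransGen.refl
    by_cases hm : F.mem (closure {a, b} : Subgroup G)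
    · exact Relation.ReflTransGen.single ⟨ha, hb, hab', hm⟩
    have hcard : Nat.card (closure {a, b} : Subgroup G) < n := by
      rw [← hn]
      exact lt_of_le_of_ne (Subgroup.card_le_card_group _)
        (fun h => hab ((Subgroup.card_eq_iff_eq_top _).mp h))
    have h1 := ih _ hcard (closure {a, b} : Subgroup G) rfl
      ⟨a, subset_closure (by simp)⟩ ⟨b, subset_closure (by simp)⟩
      (notMem_isol_closure hab' hm) (notMem_isol_closure' hab' hm)
    exact h1.ofSub
  by_cases hxy : x = y
  · subst hxy; exact Relation.ReflTransGen.refl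
  by_cases hm : F.mem (closure {x, y} : Subgroup G)
  · exact Relation.ReflTransGen.single ⟨hx, hy, hxy, hm⟩
  by_cases htop : closure {x, y} = (⊤ : Subgroup G)
  swap
  · exact pair x y hx hy htop
  have hGm : ¬ F.mem G := fun h => hm ((mem_of_closure_eq_top htop).mpr h)
  have hnt : Nontrivial G := ⟨x, y, hxy⟩
  obtain ⟨hnc, hT⟩ := hC G ⟨x, y, htop⟩ hGm
  have hV : ∀ a : G, InV a → a ∉ isol F G := by
    rintro a ⟨b, hab⟩ hai
    have hne : b ≠ a := by
      rintro rfl
      exact hnc (isCyclic_of_gen2_self hab)
    exact hGm ((mem_of_closure_eq_top hab).mp (hai b hne))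
  have hxV : InV x := ⟨y, htop⟩
  have hyV : InV y := ⟨x, Gen2.symm htop⟩
  by_cases hTied : Tied G
  · obtain ⟨z, w, hzw, hz, hzwm⟩ := hT hTied
    have hzi : z ∉ isol F G := fun h => hzwm (h w (Ne.symm hzw))
    have hzV : ∀ b, closure {z, b} ≠ (⊤ : Subgroup G) := by
      intro b hb
      apply hz
      have h1 : Gen2 (QuotientGroup.mk' (normalClosure {z}) z)
          (QuotientGroup.mk' (normalClosure {z}) b) :=
        Gen2.map _ (QuotientGroup.mk'_surjective _) hb
      have h2 : QuotientGroup.mk' (normalClosure {z}) z = 1 :=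
        (QuotientGroup.eq_one_iff z).mpr (subset_normalClosure (by simp))
      rw [h2] at h1
      refine ⟨QuotientGroup.mk' (normalClosure {z}) b, fun y => ?_⟩
      have h3 : y ∈ closure {(1 : G ⧸ normalClosure {z}),
          QuotientGroup.mk' (normalClosure {z}) b} := by
        rw [show closure {(1 : G ⧸ normalClosure {z}),
          QuotientGroup.mk' (normalClosure {z}) b} = ⊤ from h1]; trivial
      rw [closure_insert_one, ← zpowers_eq_closure] at h3
      exact h3
    have h1 : Rch F G x z := pair x z hx hzi (by rw [Set.pair_comm]; exact hzV x)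
    have h2 : Rch F G z y := pair z y hzi hy (hzV y)
    exact Relation.ReflTransGen.trans h1 h2
  · have hconn : Conn G := by
      by_contra h
      exact hTied (tied_of_not_conn ⟨x, y, htop⟩ hnc h)
    have h1 := hconn x y hxV hyV
    clear hyV htop hm hxy hy
    induction h1 with
    | refl => exact Relation.ReflTransGen.refl
    | tail _ hbc ih2 =>
      exact Relation.ReflTransGen.trans ih2 (pair _ _ (hV _ hbc.1) (hV _ hbc.2.1) hbc.2.2)

/-- Claim 2 -/
theorem preconnected_of_criterion {F : GroupFamily} (hF : F.Soluble) (hC : Criterion F)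
    (G : Type) [Group G] [Finite G] (hS : (Gam allSoluble G).Preconnected) :
    (Gam F G).Preconnected := by
  -- pairs generating a soluble subgroup
  have pair : ∀ a b : G, a ∉ isol F G → b ∉ isol F G →
      Group.IsSolvable (closure {a, b} : Subgroup G) → Rch F G a b := by
    intro a b ha hb hab
    by_cases hab' : a = b
    · subst hab'; exact Relation.ReflTransGen.refl
    by_cases hm : F.mem (closure {a, b} : Subgroup G)
    · exact Relation.ReflTransGen.single ⟨ha, hb, hab', hm⟩
    have h1 := rch_of_criterion hC _ (closure {a, b} : Subgroup G) rfl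
      ⟨a, subset_closure (by simp)⟩ ⟨b, subset_closure (by simp)⟩
      (notMem_isol_closure hab' hm) (notMem_isol_closure' hab' hm)
    exact h1.ofSub
  have hsub : ∀ a : G, a ∉ isol allSoluble G → a ∉ isol F G := by
    intro a ha hai
    apply ha
    intro b hb
    exact hF _ (hai b hb)
  apply preconnected_of_rch
  intro x y hx hy
  by_cases hsol : Group.IsSolvable (closure {x, y} : Subgroup G)
  · exact pair x y hx hy hsol
  · have hxy : x ≠ y := by
      rintro rfl
      apply hsol
      have h1 : IsCyclic (closure {x, x} : Subgroup G) := by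
        rw [Set.pair_eq_singleton, ← zpowers_eq_closure]
        infer_instance
      have h2 := comm_of_cyclic h1
      exact Group.isSolvable_of_comm h2
    have hxS : x ∉ isol allSoluble G := fun h => hsol (h y hxy.symm).2
    have hyS : y ∉ isol allSoluble G := by
      intro h
      have := (h x hxy).2
      rw [Set.pair_comm] at this
      exact hsol this
    have h1 := rch_of_reachable (hS ⟨x, hxS⟩ ⟨y, hyS⟩)
    simp only at h1
    clear hyS hxy hsol hy
    induction h1 with
    | refl => exact Relation.ReflTransGen.refl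
    | tail _ hbc ih2 =>
      exact Relation.ReflTransGen.trans ih2
        (pair _ _ (hsub _ hbc.1) (hsub _ hbc.2.1) hbc.2.2.2.2)

/-- for soluble `G` the graph `Γ_𝒮(G)` has no vertices -/
theorem preconnected_allSoluble (G : Type) [Group G] [Finite G] [Group.IsSolvable G] :
    (Gam allSoluble G).Preconnected := by
  rintro ⟨x, hx⟩
  exact absurd (fun y _ => ⟨inferInstance, inferInstance⟩) hx

/-- necessity of the criterion -/
theorem criterion_of_soluble {F : GroupFamily}
    (h : ∀ (G : Type) [Group G] [Finite G] [Group.IsSolvable G], ¬ F.mem G →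
      (Gam F G).Preconnected) : Criterion F := by
  intro G _ _ _ hnt hgen hGm
  have hcon := h G hGm
  have hnc : ¬ IsCyclic G := by
    rintro ⟨g, hg⟩
    have hgtop : ∀ b : G, closure {g, b} = (⊤ : Subgroup G) := by
      intro b
      rw [eq_top_iff]
      intro y _
      have h1 : zpowers g ≤ closure {g, b} := by
        rw [zpowers_le]; exact subset_closure (by simp)
      exact h1 (hg y)
    obtain ⟨b, hb⟩ := exists_ne g
    have hgi : g ∉ isol F G := fun hi => hGm ((mem_of_closure_eq_top (hgtop b)).mp (hi b hb))
    have hbi : b ∉ isol F G := by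
      intro hi
      have h1 := hi g hb.symm
      rw [Set.pair_comm] at h1
      exact hGm ((mem_of_closure_eq_top (hgtop b)).mp h1)
    have h2 := rch_of_reachable (hcon ⟨g, hgi⟩ ⟨b, hbi⟩)
    simp only at h2
    rcases Relation.ReflTransGen.cases_head h2 with h3 | ⟨c, hc, -⟩
    · exact hb h3.symm
    · exact hGm ((mem_of_closure_eq_top (hgtop c)).mp hc.2.2.2)
  refine ⟨hnc, fun hTied => ?_⟩
  by_contra hno
  push Not at hno
  obtain ⟨p, hp, hGp, R, hRn, hRi, hR⟩ := hTied
  -- vertices of the graph
  have hvert : ∀ z : G, z ∉ isol F G → IsCyclic (G ⧸ normalClosure {z}) := by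
    intro z hz
    by_contra hzc
    apply hz
    intro w hw
    by_contra hm
    exact hm (hno z w hw.symm hzc)
  have hV : ∀ a b : G, Gen2 a b → a ∉ isol F G := by
    intro a b hab hai
    have hne : b ≠ a := by
      rintro rfl
      exact hnc (isCyclic_of_gen2_self hab)
    exact hGm ((mem_of_closure_eq_top hab).mp (hai b hne))
  -- a generating pair with exactly one element in `R`
  have hpair : ∃ x y : G, x ∈ R ∧ y ∉ R ∧ Gen2 x y := by
    obtain ⟨a, b, hab⟩ := hgen
    have hRtop : R ≠ ⊤ := by
      rintro rfl
      rw [index_top] at hRi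
      exact hp.one_lt.ne hRi
    have key : ∀ a b : G, closure {a, b} = (⊤ : Subgroup G) → b ∉ R →
        ∃ x y : G, x ∈ R ∧ y ∉ R ∧ Gen2 x y := by
      intro a b hab hb
      obtain ⟨k, r, hr, hk⟩ := exists_rep_of_prime_index hp R hRn hRi hb a
      refine ⟨r, b, hr, hb, ?_⟩
      unfold Gen2
      rw [eq_top_iff, ← hab, closure_le]
      intro z hz
      simp only [Set.mem_insert_iff, Set.mem_singleton_iff] at hz
      rcases hz with rfl | rfl
      · rw [hk]
        exact mul_mem (zpow_mem (subset_closure (by simp)) k) (subset_closure (by simp))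
      · exact subset_closure (by simp)
    by_cases hb : b ∈ R
    · by_cases ha : a ∈ R
      · exfalso
        apply hRtop
        rw [eq_top_iff, ← hab, closure_le]
        intro z hz
        simp only [Set.mem_insert_iff, Set.mem_singleton_iff] at hz
        rcases hz with rfl | rfl <;> assumption
      · exact key b a (by rw [Set.pair_comm]; exact hab) ha
    · exact key a b hab hb
  obtain ⟨x, y, hx, hy, hxy⟩ := hpair
  have hxi := hV x y hxy
  have hyi := hV y x hxy.symm
  have h2 := rch_of_reachable (hcon ⟨x, hxi⟩ ⟨y, hyi⟩)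
  simp only at h2
  have hinv : ∀ c : G, Rch F G x c → c ∈ R := by
    intro c hc
    induction hc with
    | refl => exact hx
    | @tail b c _ hbc ih =>
      by_contra hcR
      have h3 := gen2_of_tied hp hGp R hRn hRi hR ih (hvert b hbc.1) hcR
      exact hGm ((mem_of_closure_eq_top h3).mp hbc.2.2.2)
  exact hy (hinv y h2)

theorem main (F : GroupFamily) (hF : F.Soluble) :
    (Criterion F ↔ ∀ (G : Type) [Group G] [Finite G] [Group.IsSolvable G], ¬ F.mem G →
      (Gam F G).Preconnected) ∧
    (HasProperty F → Criterion F) ∧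
    (Criterion F → ∀ (G : Type) [Group G] [Finite G], (Gam allSoluble G).Preconnected →
      (Gam F G).Preconnected) ∧
    (HasProperty allSoluble → (HasProperty F ↔ Criterion F)) ∧
    ((∀ (G : Type) [Group G] [Finite G], Group.IsNilpotent (commutator G) → F.mem G) →
      Criterion F) := by
  have h1 : HasProperty F → Criterion F := by
    intro h
    apply criterion_of_soluble
    intro G _ _ _ hG
    exact h G hG
  refine ⟨⟨?_, ?_⟩, h1, ?_, ?_, ?_⟩
  · intro hC G _ _ _ _
    exact preconnected_of_criterion hF hC G (preconnected_allSoluble G)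
  · intro h
    exact criterion_of_soluble h
  · intro hC G _ _ hS
    exact preconnected_of_criterion hF hC G hS
  · intro hS
    refine ⟨h1, fun hC G _ _ hG => ?_⟩
    by_cases hsol : Group.IsSolvable G
    · exact preconnected_of_criterion hF hC G (preconnected_allSoluble G)
    · exact preconnected_of_criterion hF hC G (hS G (fun h => hsol h.2))
  · intro h G _ _ _ _ _ hGm
    refine ⟨fun hc => hGm (h G ?_), fun hT => absurd (h G (commutator_nilpotent_of_tied hT)) hGm⟩
    have h2 : commutator G = ⊥ := by
      rw [_root_.commutator_def, eq_bot_iff, commutator_le]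
      intro a _ b _
      rw [mem_bot, commutatorElement_eq_one_iff_mul_comm]
      exact comm_of_cyclic hc a b
    rw [h2]
    infer_instance

end Pool.Agent.W_MP_28567f_al
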