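import Mathlib
import Pool.Agent.W_MP_28567f_al.Main

/-!
A family satisfying the criterion contains all non-trivial 2-generated finite `p`-groups.
-/

open Subgroup

open scoped commutatorElement

namespace Pool.Agent.W_MP_28567f_al

theorem tied_of_isPGroup {G : Type*} [Group G] [Finite G] [Nontrivial G] {p : ℕ} (hp : p.Prime)
    (hG : IsPGroup p G) : Tied G := by
  have _ : Fact p.Prime := ⟨hp⟩
  have hnil : Group.IsNilpotent G := hG.isNilpotent
  have hGp : IsPGroup p (Abelianization G) :=
    hG.of_surjective (Abelianization.of) (QuotientGroup.mk'_surjective _)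
  have hcoat : ∀ H : Subgroup G, IsCoatom H → H.Normal :=
    ((Group.isNilpotent_of_finite_tfae (G := G)).out 0 2 rfl rfl).mp hnil
  obtain ⟨M, hM, -⟩ := (eq_top_or_exists_le_coatom (⊥ : Subgroup G)).resolve_left bot_ne_top
  refine ⟨p, hp, hGp, M, hcoat M hM, (coatom_normal hp hGp M hM (hcoat M hM)).2, ?_⟩
  rw [frattini, Order.radical]
  refine le_iInf₂ fun N hN => ?_
  refine le_trans ?_ (coatom_normal hp hGp N hN (hcoat N hN)).1
  rw [_root_.commutator_def]
  exact commutator_mono le_top le_top

theorem mem_of_isPGroup {F : GroupFamily} (hC : Criterion F) (n : ℕ) :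
    ∀ (G : Type) [Group G] [Finite G] [Nontrivial G], Nat.card G = n →
      ∀ p : ℕ, p.Prime → IsPGroup p G → (∃ a b : G, closure {a, b} = (⊤ : Subgroup G)) →
        F.mem G := by
  induction n using Nat.strong_induction_on with
  | _ n ih =>
  intro G _ _ hnt hn p hp hG hgen
  by_contra hGm
  have _ : Fact p.Prime := ⟨hp⟩
  have hnil : Group.IsNilpotent G := hG.isNilpotent
  have hsol : Group.IsSolvable G := inferInstance
  obtain ⟨-, hT⟩ := hC G hgen hGm
  obtain ⟨z, w, hzw, hz, hm⟩ := hT (tied_of_isPGroup hp hG)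
  apply hm
  have hne : closure {z, w} ≠ (⊤ : Subgroup G) := by
    intro htop
    apply hz
    have h1 : Gen2 (QuotientGroup.mk' (normalClosure {z}) z)
        (QuotientGroup.mk' (normalClosure {z}) w) :=
      Gen2.map _ (QuotientGroup.mk'_surjective _) htop
    have h2 : QuotientGroup.mk' (normalClosure {z}) z = 1 :=
      (QuotientGroup.eq_one_iff z).mpr (subset_normalClosure (by simp))
    rw [h2] at h1
    refine ⟨QuotientGroup.mk' (normalClosure {z}) w, fun y => ?_⟩
    have h3 : y ∈ closure {(1 : G ⧸ normalClosure {z}),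
        QuotientGroup.mk' (normalClosure {z}) w} := by
      rw [show closure {(1 : G ⧸ normalClosure {z}),
        QuotientGroup.mk' (normalClosure {z}) w} = ⊤ from h1]; trivial
    rw [closure_insert_one, ← zpowers_eq_closure] at h3
    exact h3
  have hcard : Nat.card (closure {z, w} : Subgroup G) < n := by
    rw [← hn]
    exact lt_of_le_of_ne (Subgroup.card_le_card_group _)
      (fun h => hne ((Subgroup.card_eq_iff_eq_top _).mp h))
  have hzm : z ∈ (closure {z, w} : Subgroup G) := subset_closure (by simp)
  have hwm : w ∈ (closure {z, w} : Subgroup G) := subset_closure (by simp)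
  have hnt' : Nontrivial (closure {z, w} : Subgroup G) :=
    ⟨⟨z, hzm⟩, ⟨w, hwm⟩, fun h => hzw (congrArg Subtype.val h)⟩
  refine ih _ hcard (closure {z, w} : Subgroup G) rfl p hp (hG.to_subgroup _)
    ⟨⟨z, hzm⟩, ⟨w, hwm⟩, ?_⟩
  have h1 := closure_closure_coe_preimage (k := ({z, w} : Set G))
  rw [eq_top_iff, ← h1, closure_le]
  rintro ⟨x, hx⟩ hxs
  have hxs' : x = z ∨ x = w := by simpa using hxs
  rcases hxs' with rfl | rfl
  · exact subset_closure (by simp)
  · exact subset_closure (by simp)

end Pool.Agent.W_MP_28567f_al
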